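import Pool.Agent.P.MP_7a71fe_lc.AC.Link

/-! The construction: columns, the martingale and the stages. -/

namespace Pool.Agent.P.MP_7a71fe_lc.AC

open Pool.Agent.Lib.Helper47 Finset
open scoped Classical

/-- the tree with number `n` -/
def tr (n : ℕ) : T := dec (str n)

def rep (n : ℕ) : Str := List.replicate n true

def code (k : ℕ) (x : Str) : Str := pair (rep k) (pair x (rep ((x.length + 2) ^ k)))

def ck (v : Str) : ℕ := (fstP v).length

def cx (v : Str) : Str := fstP (sndP v)

def IsC (v : Str) : Prop := v = code (ck v) (cx v)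

def ones (y : Str) : ℕ := (y.takeWhile fun b => b).length

def body (y : Str) : Str := (y.dropWhile fun b => b).tail

def el (m : ℕ) (v : Str) : Str := rep m ++ false :: v

/-- the language of column `k` -/
def Lk (k : ℕ) : Set Str := {x | U (tr k).fst x (2 ^ (code k x).length) = some [true]}

/-- both programs exchange the root `0 u` and `y` quickly -/
def W (τ : T) (t : ℕ) (u y : Str) : Prop :=
  y.length ≤ t ∧ U τ.snd y (min t (2 ^ u.length)) = some (false :: u) ∧
    U τ.fst (false :: u) (min t (2 ^ u.length)) = some y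

def kk (i : ℕ) : ℕ := (tr i).fst.size / 2

/-- component `i` of the martingale bets on the string with number `t` -/
def Pd (i t : ℕ) : Prop :=
  ∃ m ≤ t, ∃ u, W (tr i).snd t u (el (2 * m + 1) (code (kk i) (str t)))

noncomputable def fac (i t : ℕ) (b : Bool) : ℕ := if Pd i t then (bif b then 1 else 3) else 2

noncomputable def PP (i : ℕ) (w : Str) : ℕ := ∏ t ∈ Ico i w.length, fac i t (w.getD t false)

noncomputable def DD (w : Str) : ℕ := 2 + ∑ i ∈ range w.length, PP i w

/-- column `k` is cut off at length `n` -/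
def Tr (k n : ℕ) : Prop := ∃ t, (code k (str t)).length ≤ n ∧ k * 2 ^ t ≤ DD (pre (Lk k) t)

def C0 (v : Str) : Prop := v = [] ∨ (IsC v ∧ cx v ∈ Lk (ck v) ∧ ¬ Tr (ck v) v.length)

/-- requirement, root, image -/
abbrev Rc : Type := ℕ × Str × Str

variable (φ : Str → Str)

def BS (S : Rc → Prop) (y : Str) : Prop :=
  if Even (ones y) then ∃ r, S r ∧ φ r.2.1 = body y else C0 (body y) ∧
    ¬ ∃ r, S r ∧ Odd (ones r.2.2) ∧ body r.2.2 = body y ∧ r.2.1.length < (body y).length

def AS (S : Rc → Prop) : Str → Prop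
  | [] => True
  | false :: u => ∃ r, S r ∧ r.2.1 = u
  | true :: y => BS φ S y

def Dead (S : Rc → Prop) (n j : ℕ) : Prop :=
  ∃ z y, z.length < n ∧ y.length < n ∧ U (tr j).fst z (2 ^ n) = some y ∧ ¬ (AS φ S z ↔ BS φ S y)

def Rsv (j n : ℕ) (y : Str) : Prop :=
  Odd (ones y) ∧ IsC (body y) ∧ ck (body y) ≤ j ∧ n < (body y).length

def Req (n j : ℕ) (u y : Str) : Prop :=
  u.length = n ∧ U (tr j).fst (false :: u) (2 ^ n) = some y ∧ ¬ (Even (ones y) ∧ body y = φ u) ∧
    (Rsv j n y → W (tr j) (idx (cx (body y))) u y)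

def Wants (S : Rc → Prop) (n j : ℕ) : Prop := ¬ Dead φ S n j ∧ ∃ u y, Req φ n j u y

def Val (S : Rc → Prop) (n j : ℕ) (y : Str) : Prop :=
  if Odd (ones y) ∧ n < (body y).length then Rsv j n y ∧ ¬ Tr (ck (body y)) n else BS φ S y

def Blk (S : Rc → Prop) (n j : ℕ) : Prop := ∃ r, S r ∧ r.1 ≤ j ∧ n ≤ r.2.2.length

noncomputable def cu (n j : ℕ) : Str :=
  (((List.range (2 ^ (n + 1))).map str).find? fun u => decide (∃ y, Req φ n j u y)).getD []

noncomputable def cy (n j : ℕ) : Str := (U (tr j).fst (false :: cu φ n j) (2 ^ n)).getD []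

noncomputable def act (S : List Rc) (n : ℕ) : List Rc :=
  ((List.range n).find? fun j => decide (Wants φ (· ∈ S) n j)).elim [] fun j =>
    if Blk (· ∈ S) n j ∨ Val φ (· ∈ S) n j (cy φ n j) then [] else [(j, cu φ n j, cy φ n j)]

noncomputable def St (n : ℕ) : List Rc := (List.range n).foldl (fun S i => act φ S i ++ S) []

def RR (r : Rc) : Prop := ∃ n, r ∈ St φ n

/-- requirement `j` is chosen at stage `n` -/
def Ch (n j : ℕ) : Prop :=
  j < n ∧ Wants φ (· ∈ St φ n) n j ∧ ∀ j' < j, ¬ Wants φ (· ∈ St φ n) n j'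

def AA : Set Str := {z | AS φ (RR φ) z}

def BB : Set Str := {y | BS φ (RR φ) y}

variable {φ}

/-! ### strings -/

@[simp] theorem length_rep (n : ℕ) : (rep n).length = n := List.length_replicate

theorem tr_idx (t : T) : tr (idx t.enc) = t := by rw [tr, str_idx, dec_enc]

@[simp] theorem ck_code (k : ℕ) (x : Str) : ck (code k x) = k := by simp [ck, code]

@[simp] theorem cx_code (k : ℕ) (x : Str) : cx (code k x) = x := by simp [cx, code]

theorem isC_code (k : ℕ) (x : Str) : IsC (code k x) := by simp [IsC]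

theorem length_code (k : ℕ) (x : Str) :
    (code k x).length = 2 * k + 1 + (2 * x.length + 1 + (x.length + 2) ^ k) := by
  simp [code, length_pair]

theorem length_code_mono {k k' : ℕ} {x x' : Str} (hk : k ≤ k') (h : x.length ≤ x'.length) :
    (code k x).length ≤ (code k' x').length := by
  have := (Nat.pow_le_pow_left (Nat.add_le_add_right h 2) k).trans
    (Nat.pow_le_pow_right (by omega) hk)
  rw [length_code, length_code]; omega

@[simp] theorem ones_true (y : Str) : ones (true :: y) = ones y + 1 := by simp [ones]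

@[simp] theorem ones_false (y : Str) : ones (false :: y) = 0 := by simp [ones]

@[simp] theorem body_true (y : Str) : body (true :: y) = body y := by simp [body]

@[simp] theorem body_false (y : Str) : body (false :: y) = y := by simp [body]

theorem el_succ (m : ℕ) (v : Str) : el (m + 1) v = true :: el m v := rfl

@[simp] theorem ones_el (m : ℕ) (v : Str) : ones (el m v) = m := by
  induction m with
  | zero => exact ones_false v
  | succ m ih => rw [el_succ, ones_true, ih]

@[simp] theorem body_el (m : ℕ) (v : Str) : body (el m v) = v := by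
  induction m with
  | zero => exact body_false v
  | succ m ih => rw [el_succ, body_true, ih]

theorem el_eq {y : Str} (h : body y ≠ []) : el (ones y) (body y) = y := by
  induction y with
  | nil => exact absurd rfl h
  | cons b y ih =>
    cases b
    · rw [ones_false, body_false]; rfl
    · rw [ones_true, body_true, el_succ, ih (by simpa using h)]

theorem length_el (m : ℕ) (v : Str) : (el m v).length = m + 1 + v.length := by
  simp [el]; omega

theorem length_body (y : Str) : (body y).length ≤ y.length := by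
  have := (List.dropWhile_sublist (l := y) fun b => b).length_le
  simp [body]; omega

theorem ones_le (y : Str) : ones y ≤ y.length := (List.takeWhile_sublist _).length_le

theorem exists_size (k : ℕ) : ∃ t : T, t.size = 2 * k + 1 := by
  induction k with
  | zero => exact ⟨.nil, rfl⟩
  | succ k ih => obtain ⟨t, h⟩ := ih; exact ⟨.cons .nil t, by simp [h]; omega⟩

theorem exists_comp (k : ℕ) (τ : T) : ∃ i, kk i = k ∧ (tr i).snd = τ := by
  obtain ⟨t, h⟩ := exists_size k
  refine ⟨idx (T.cons t τ).enc, ?_, by rw [tr_idx]; rfl⟩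
  rw [kk, tr_idx, T.fst, h]; omega

theorem exists_col (e : T) (c : ℕ) : ∃ k, c ≤ k ∧ (tr k).fst = e := by
  obtain ⟨t, h⟩ := exists_size c
  refine ⟨idx (T.cons e t).enc, ?_, by rw [tr_idx]; rfl⟩
  have h1 := idx_ge (T.cons e t).enc
  have h2 : (T.cons e t).enc.length = e.size + t.size + 1 := T.size_cons e t
  have h3 : (T.cons e t).enc.length < 2 ^ (T.cons e t).enc.length := Nat.lt_two_pow_self
  omega

/-! ### the martingale -/

theorem PP_snoc {i : ℕ} {w : Str} (h : i ≤ w.length) (b : Bool) :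
    PP i (w ++ [b]) = PP i w * fac i w.length b := by
  rw [PP, List.length_append, List.length_singleton, prod_Ico_succ_top h, PP]
  congr 1
  · exact prod_congr rfl fun t ht => by rw [List.getD_append _ _ _ _ (mem_Ico.1 ht).2]
  · simp

theorem DD_fair (w : Str) : DD (w ++ [false]) + DD (w ++ [true]) = 4 * DD w := by
  have h : ∀ i ∈ range (w.length + 1), PP i (w ++ [false]) + PP i (w ++ [true]) = 4 * PP i w :=
    fun i hi => by
      have := Nat.lt_succ_iff.1 (mem_range.1 hi)
      rw [PP_snoc this, PP_snoc this, ← mul_add, mul_comm]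
      unfold fac
      split_ifs <;> rfl
  have h1 := sum_congr rfl h
  rw [sum_add_distrib, ← mul_sum, sum_range_succ (fun i => PP i w), PP, Ico_self, prod_empty] at h1
  simp only [DD, List.length_append, List.length_singleton]
  omega

@[simp] theorem length_pre (L : Set Str) (n : ℕ) : (pre L n).length = n := by simp [pre]

theorem pre_succ (L : Set Str) (n : ℕ) : pre L (n + 1) = pre L n ++ [decide (str n ∈ L)] := by
  simp [pre, List.range_succ]

theorem succ_of {L : Set Str} {i : ℕ} (h1 : {t | Pd i t}.Infinite)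
    (h2 : {t | Pd i t ∧ str t ∈ L}.Finite) : Succ DD L := by
  obtain ⟨b, hb⟩ := h2.bddAbove
  obtain ⟨s, hs1, hs2⟩ : ∃ s, i < s ∧ b < s := ⟨i + b + 1, by omega, by omega⟩
  have st : ∀ t, s ≤ t → PP i (pre L (t + 1)) = PP i (pre L t) * if Pd i t then 3 else 2 :=
    fun t ht => by
      rw [pre_succ, PP_snoc (by simp; omega), length_pre, fac]
      split_ifs with h
      · rw [decide_eq_false fun h' => absurd (hb ⟨h, h'⟩) (by omega)]; rfl
      · rfl
  have pos : 0 < PP i (pre L s) := prod_pos fun t _ => by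
    unfold fac
    split_ifs
    · cases (pre L s).getD t false <;> simp
    · simp
  have mono : ∀ c n, s ≤ n → c * 2 ^ n ≤ 2 ^ (s + 1) * PP i (pre L n) → ∀ t, n ≤ t →
      c * 2 ^ t ≤ 2 ^ (s + 1) * PP i (pre L t) := fun c n hn h t ht => by
    induction t, ht using Nat.le_induction with
    | base => exact h
    | succ t ht ih =>
      rw [st t (hn.trans ht), pow_succ 2 t, ← mul_assoc, ← mul_assoc]
      exact Nat.mul_le_mul ih (by split_ifs <;> omega)
  have key : ∀ m, ∃ n, s ≤ n ∧ (m + 2) * 2 ^ n ≤ 2 ^ (s + 1) * PP i (pre L n) := fun m => by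
    induction m with
    | zero => exact ⟨s, le_rfl, by rw [pow_succ]; nlinarith [Nat.two_pow_pos s]⟩
    | succ m ih =>
      obtain ⟨n, hn, h⟩ := ih
      obtain ⟨t, ht, hnt⟩ := h1.exists_gt n
      have := mono _ n hn h t hnt.le
      refine ⟨t + 1, by omega, ?_⟩
      rw [st t (by omega), if_pos (show Pd i t from ht), pow_succ 2 t]
      nlinarith [Nat.two_pow_pos t]
  intro c
  obtain ⟨n, hn, h⟩ := key (2 ^ (s + 1) * c)
  have h3 : 2 ^ (s + 1) * (c * 2 ^ n) ≤ 2 ^ (s + 1) * PP i (pre L n) := by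
    rw [← mul_assoc]; exact (Nat.mul_le_mul_right _ (Nat.le_add_right _ 2)).trans h
  exact ⟨n, (Nat.le_of_mul_le_mul_left h3 (Nat.two_pow_pos _)).trans ((single_le_sum
    (f := fun i => PP i (pre L n)) (fun _ _ => Nat.zero_le _)
      (mem_range.2 (by simp; omega) : i ∈ range (pre L n).length)).trans (Nat.le_add_left _ _))⟩

theorem Tr.mono {k n n' : ℕ} (h : Tr k n) (hn : n ≤ n') : Tr k n' :=
  h.imp fun _ h => ⟨h.1.trans hn, h.2⟩

/-! ### the stages -/

theorem req_cu {n j : ℕ} (h : ∃ u y, Req φ n j u y) : Req φ n j (cu φ n j) (cy φ n j) := by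
  obtain ⟨u, y, h⟩ := h
  have h1 : ∃ y, Req φ n j (cu φ n j) y := by
    unfold cu
    cases e : ((List.range (2 ^ (n + 1))).map str).find? fun u => decide (∃ y, Req φ n j u y) with
    | none =>
      refine absurd (decide_eq_true ⟨y, h⟩) (List.find?_eq_none.1 e u ?_)
      exact List.mem_map.2 ⟨idx u, List.mem_range.2 (h.1 ▸ idx_lt u), str_idx u⟩
    | some v => simpa using List.find?_some e
  obtain ⟨y', h1⟩ := h1
  rwa [cy, h1.2.1]

theorem St_succ (n : ℕ) : St φ (n + 1) = act φ (St φ n) n ++ St φ n := by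
  rw [St, List.range_succ, List.foldl_append]; rfl

theorem find_iff {n j : ℕ} : ((List.range n).find? fun j =>
    decide (Wants φ (· ∈ St φ n) n j)) = some j ↔ Ch φ n j := by
  simp only [List.find?_range_eq_some, Ch, List.mem_range, decide_eq_true_eq, Bool.not_eq_true',
    decide_eq_false_iff_not]
  tauto

theorem mem_act {n : ℕ} {r : Rc} : r ∈ act φ (St φ n) n ↔ Ch φ n r.1 ∧
    ¬ (Blk (· ∈ St φ n) n r.1 ∨ Val φ (· ∈ St φ n) n r.1 (cy φ n r.1)) ∧
      r = (r.1, cu φ n r.1, cy φ n r.1) := by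
  rw [← find_iff, act]
  cases (List.range n).find? fun j => decide (Wants φ (· ∈ St φ n) n j) with
  | none => simp
  | some j =>
    rw [Option.elim_some, Option.some_inj]
    split_ifs with h
    · exact iff_of_false List.not_mem_nil fun h1 => h1.2.1 (h1.1 ▸ h)
    · rw [List.mem_singleton]
      exact ⟨fun e => by subst e; exact ⟨rfl, h, rfl⟩, fun h1 => h1.1 ▸ h1.2.2⟩

theorem act_len {n : ℕ} {r : Rc} (h : r ∈ act φ (St φ n) n) : r.2.1.length = n := by
  obtain ⟨h1, -, h2⟩ := mem_act.1 h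
  rw [h2]
  exact (req_cu h1.2.1.2).1

theorem mem_St' {n : ℕ} {r : Rc} :
    r ∈ St φ n ↔ r.2.1.length < n ∧ r ∈ act φ (St φ r.2.1.length) r.2.1.length := by
  induction n with
  | zero => simp [St]
  | succ n ih =>
    rw [St_succ, List.mem_append, ih]
    constructor
    · rintro (h | h)
      · rw [act_len h]; exact ⟨n.lt_succ_self, h⟩
      · exact ⟨by omega, h.2⟩
    · rintro ⟨h1, h2⟩
      rcases Nat.lt_succ_iff_lt_or_eq.1 h1 with h | h
      · exact Or.inr ⟨h, h2⟩
      · exact Or.inl (h ▸ h2)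

theorem RR_iff {r : Rc} : RR φ r ↔ r ∈ act φ (St φ r.2.1.length) r.2.1.length :=
  ⟨fun ⟨_, h⟩ => (mem_St'.1 h).2, fun h => ⟨_, mem_St'.2 ⟨Nat.lt_succ_self _, h⟩⟩⟩

theorem mem_St {n : ℕ} {r : Rc} : r ∈ St φ n ↔ RR φ r ∧ r.2.1.length < n := by
  rw [mem_St', RR_iff, and_comm]

theorem Ch.uniq {n j j' : ℕ} (h : Ch φ n j) (h' : Ch φ n j') : j = j' :=
  Option.some.inj ((find_iff.2 h).symm.trans (find_iff.2 h'))

theorem RR.spec {r : Rc} (h : RR φ r) : Ch φ r.2.1.length r.1 ∧
    Req φ r.2.1.length r.1 r.2.1 r.2.2 ∧ ¬ Blk (· ∈ St φ r.2.1.length) r.2.1.length r.1 ∧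
      ¬ Val φ (· ∈ St φ r.2.1.length) r.2.1.length r.1 r.2.2 := by
  obtain ⟨h1, h2, h3⟩ := mem_act.1 (RR_iff.1 h)
  have h4 := req_cu h1.2.1.2
  have h5 : cu φ r.2.1.length r.1 = r.2.1 := (congrArg (fun r : Rc => r.2.1) h3).symm
  have h6 : cy φ r.2.1.length r.1 = r.2.2 := (congrArg (fun r : Rc => r.2.2) h3).symm
  rw [h5, h6] at h4
  rw [h6] at h2
  exact ⟨h1, h4, not_or.1 h2⟩

theorem RR.uniq {r r' : Rc} (h : RR φ r) (h' : RR φ r') (e : r.2.1.length = r'.2.1.length) :
    r = r' := by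
  obtain ⟨h1, -, h3⟩ := mem_act.1 (RR_iff.1 h)
  obtain ⟨h1', -, h3'⟩ := mem_act.1 (RR_iff.1 h')
  rw [e] at h1
  rw [h3, h3', e, h1.uniq h1']

theorem Ch.spec {n j : ℕ} (h : Ch φ n j) : ∃ u y, Req φ n j u y ∧ (RR φ (j, u, y) ∨
    ((Blk (· ∈ St φ n) n j ∨ Val φ (· ∈ St φ n) n j y) ∧ ∀ r, RR φ r → r.2.1.length ≠ n)) := by
  have h1 := req_cu h.2.1.2
  refine ⟨_, _, h1, ?_⟩
  by_cases h2 : Blk (· ∈ St φ n) n j ∨ Val φ (· ∈ St φ n) n j (cy φ n j)
  · refine Or.inr ⟨h2, fun r hr e => ?_⟩
    obtain ⟨h3, h4, -⟩ := mem_act.1 (RR_iff.1 hr)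
    rw [e] at h3 h4
    exact h4 (h.uniq h3 ▸ h2)
  · exact Or.inl ⟨n + 1, St_succ n ▸ List.mem_append_left _ (mem_act.2 ⟨h, h2, rfl⟩)⟩

theorem BS_stab (hφ : OW φ) {n : ℕ} {y : Str} (h : (body y).length ≤ n) :
    BS φ (· ∈ St φ n) y ↔ y ∈ BB φ := by
  change _ ↔ BS φ (RR φ) y
  unfold BS
  split_ifs
  · refine exists_congr fun r => and_congr_left fun e => mem_St.trans (and_iff_left ?_)
    exact (hφ.li _).trans_le (e ▸ h)
  · refine and_congr_right fun _ => not_congr (exists_congr fun r =>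
      and_congr_left fun e => mem_St.trans (and_iff_left (e.2.2.trans_le h)))

theorem AS_stab (hφ : OW φ) {n : ℕ} {z : Str} (h : z.length ≤ n) :
    AS φ (· ∈ St φ n) z ↔ z ∈ AA φ := by
  change _ ↔ AS φ (RR φ) z
  rcases z with _ | ⟨_ | _, z⟩
  · rfl
  · exact exists_congr fun r => and_congr_left fun e => mem_St.trans (and_iff_left (e ▸ h))
  · exact BS_stab hφ ((length_body z).trans (Nat.le_of_succ_le h))

end Pool.Agent.P.MP_7a71fe_lc.AC
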