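import Mathlib

/-!
Complexity classes over Mathlib's Turing machines, reductions, isomorphisms and martingales.
-/

namespace Pool.Agent.P.MP_7a71fe_lc.AC

/-- Self-delimiting pairing of bit strings. -/
def pair (x w : List Bool) : List Bool := x.flatMap (fun b => [true, b]) ++ false :: w

/-- Functions on bit strings computed in polynomial time. -/
def InFP (f : List Bool → List Bool) : Prop :=
  Nonempty (Turing.TM2ComputableInPolyTime id id f)

def InP (L : Set (List Bool)) : Prop := ∃ f, InFP f ∧ ∀ z, z ∈ L ↔ f z = [true]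

def InUP (L : Set (List Bool)) : Prop :=
  ∃ (V : Set (List Bool)) (p : Polynomial ℕ), InP V ∧
    ∀ x, (x ∈ L ↔ ∃ w, w.length = p.eval x.length ∧ pair x w ∈ V) ∧
      {w | w.length = p.eval x.length ∧ pair x w ∈ V}.Subsingleton

/-- Languages decided within time `t`. -/
def InTime (t : ℕ → ℕ) (L : Set (List Bool)) : Prop :=
  ∃ (f : List Bool → List Bool) (M : Turing.TM2ComputableInTime id id f),
    (∀ n, M.time n ≤ t n) ∧ ∀ z, z ∈ L ↔ f z = [true]

def InE (L : Set (List Bool)) : Prop := ∃ c : ℕ, InTime (fun n => 2 ^ (c * n + c)) L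

def InEXP (L : Set (List Bool)) : Prop :=
  ∃ p : Polynomial ℕ, InTime (fun n => 2 ^ p.eval n) L

/-- `f` is a polynomial-time many-one reduction of `B` to `C`. -/
def Red (B C : Set (List Bool)) (f : List Bool → List Bool) : Prop :=
  InFP f ∧ ∀ x, x ∈ B ↔ f x ∈ C

/-- `B` reduces to `C` by a one-to-one length-increasing reduction. -/
def OneLi (B C : Set (List Bool)) : Prop :=
  ∃ f, Red B C f ∧ Function.Injective f ∧ ∀ x, x.length < (f x).length

def Iso (B C : Set (List Bool)) : Prop :=
  ∃ h : List Bool ≃ List Bool, Red B C h ∧ InFP h.symm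

/-- The standard enumeration of all bit strings. -/
def str (t : ℕ) : List Bool := (t + 1).bits.reverse.tail

open Classical in
/-- The first `n` bits of the characteristic sequence of `L`. -/
noncomputable def pre (L : Set (List Bool)) (n : ℕ) : List Bool :=
  (List.range n).map fun t => decide (str t ∈ L)

/-- `w ↦ D w / 2 ^ |w|` is a polynomial-time martingale. -/
def Mart (D : List Bool → ℕ) : Prop :=
  Nonempty (Turing.TM2ComputableInPolyTime id Computability.encodeNat D) ∧
    ∀ w, D (w ++ [false]) + D (w ++ [true]) = 4 * D w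

/-- The martingale is unbounded on the characteristic sequence of `L`. -/
def Succ (D : List Bool → ℕ) (L : Set (List Bool)) : Prop :=
  ∀ c : ℕ, ∃ n, c * 2 ^ n ≤ D (pre L n)

end Pool.Agent.P.MP_7a71fe_lc.AC
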