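import Pool.Agent.P.MP_7a71fe_lc.AC.Cons

/-! The finite injury argument and its consequences. -/

namespace Pool.Agent.P.MP_7a71fe_lc.AC

open Pool.Agent.Lib.Helper47 Pool.Agent.P.MP_ba7db8_lc
open scoped Classical

variable {φ : Str → Str}

/-- every run of program `j` respects the two languages -/
def PV (φ : Str → Str) (j : ℕ) : Prop :=
  ∀ z y s, U (tr j).fst z s = some y → (z ∈ AA φ ↔ y ∈ BB φ)

theorem PV.not_dead (hφ : OW φ) {j : ℕ} (h : PV φ j) (n : ℕ) : ¬ Dead φ (· ∈ St φ n) n j :=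
  fun ⟨z, y, hz, hy, hU, hn⟩ => hn ((AS_stab hφ hz.le).trans ((h z y _ hU).trans
    (BS_stab hφ ((length_body y).trans hy.le)).symm))

theorem fin_rec {p : Rc → Prop} {N : ℕ} (h : ∀ r, RR φ r → p r → r.2.1.length < N) :
    {r | RR φ r ∧ p r}.Finite :=
  Set.Finite.of_finite_image (f := fun r => r.2.1.length)
    ((Set.finite_lt_nat N).subset (by rintro _ ⟨r, hr, rfl⟩; exact h r hr.1 hr.2))
    fun _ hr _ hr' e => hr.1.uniq hr'.1 e

theorem ch_bound {j : ℕ} (h : ∀ j' < j, {n | Ch φ n j'}.Finite) :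
    ∃ N, ∀ n, ∀ j' < j, Ch φ n j' → n < N := by
  obtain ⟨N, hN⟩ := ((Set.finite_lt_nat j).biUnion h).bddAbove
  exact ⟨N + 1, fun n j' hj hn => Nat.lt_succ_of_le (hN (Set.mem_biUnion hj hn))⟩

theorem col_fin {k : ℕ} (hk : ∀ n, ¬ Tr k n) (hf : {r | RR φ r ∧ r.1 < k}.Finite) :
    {x | ∃ m, ¬ (el (2 * m + 1) (code k x) ∈ BB φ ↔ x ∈ Lk k)}.Finite := by
  refine (hf.image fun r => cx (body r.2.2)).subset fun x ⟨m, hx⟩ => by_contra fun hn => hx ?_
  change BS φ (RR φ) _ ↔ _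
  rw [BS, ones_el, body_el, if_neg (by simp), C0, ck_code, cx_code]
  refine ⟨fun h => (h.1.resolve_left fun e => ?_).2.1, fun h => ⟨Or.inr ⟨isC_code k x, h, hk _⟩,
    fun ⟨r, hr, h1, h2, h3⟩ => hn ⟨r, ⟨hr, by_contra fun h4 => hr.spec.2.2.2 ?_⟩, by simp [h2]⟩⟩⟩
  · have := length_code k x
    rw [e, List.length_nil] at this; omega
  · rw [Val, if_pos ⟨h1, h2 ▸ h3⟩, Rsv, h2, ck_code]
    exact ⟨⟨h1, isC_code k x, by omega, h3⟩, hk _⟩

theorem rec_bound (hφ : OW φ) {j N : ℕ} (hP : PV φ j)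
    (hN : ∀ r, RR φ r → r.1 < j → r.2.1.length < N) {r : Rc} (hr : RR φ r) (e : r.1 ≤ j) :
    r.2.1.length < N := by
  refine e.lt_or_eq.elim (hN r hr) fun e => by_contra fun hlt => ?_
  obtain ⟨-, h2, -, h4⟩ := hr.spec
  have hB : BS φ (RR φ) r.2.2 := (hP (false :: r.2.1) _ _ (e ▸ h2.2.1)).1 ⟨r, hr, rfl⟩
  unfold Val at h4
  split_ifs at h4 with h5
  · rw [BS, if_neg (Nat.not_even_iff_odd.2 h5.1)] at hB
    exact hB.2 ⟨r, hr, h5.1, rfl, h5.2⟩
  by_cases h6 : (body r.2.2).length ≤ r.2.1.length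
  · exact h4 ((BS_stab hφ h6).2 hB)
  have ev : Even (ones r.2.2) := by_contra fun h => h5 ⟨Nat.not_even_iff_odd.1 h, by omega⟩
  rw [BS, if_pos ev] at hB h4
  obtain ⟨r', hr', e'⟩ := hB
  rcases lt_trichotomy r'.2.1.length r.2.1.length with h | h | h
  · exact h4 ⟨r', mem_St.2 ⟨hr', h⟩, e'⟩
  · exact h2.2.2.1 ⟨ev, by rw [← e', hr'.uniq hr h]⟩
  · have h7 := hN r' hr'
    have h8 := hφ.li r'.2.1
    have h9 := length_body r.2.2
    rw [e'] at h8
    exact hr'.spec.2.2.1 ⟨r, mem_St.2 ⟨hr, h⟩, by omega, by omega⟩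

theorem fin_ch (hφ : OW φ) (j : ℕ) : {n | Ch φ n j}.Finite := by
  induction j using Nat.strong_induction_on with
  | _ j ih =>
  by_cases hP : PV φ j
  swap
  · unfold PV at hP
    push Not at hP
    obtain ⟨z, y, s, hU, hn⟩ := hP
    refine (Set.finite_lt_nat (z.length + y.length + s + 1)).subset fun n h => by_contra fun hl => ?_
    have h1 : n < 2 ^ n := Nat.lt_two_pow_self
    have h2 := length_body y
    simp only [Set.mem_ofPred_eq] at hl
    refine h.2.1.1 ⟨z, y, by omega, by omega, U_mono hU (by omega), ?_⟩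
    rw [AS_stab hφ (by omega), BS_stab hφ (by omega)]
    tauto
  obtain ⟨N, hN⟩ := ch_bound ih
  have f1 : {r | RR φ r ∧ r.1 ≤ j}.Finite :=
    fin_rec fun r hr => rec_bound hφ hP (fun r hr h => hN _ _ h hr.spec.1) hr
  obtain ⟨M, hM⟩ := (f1.image fun r => r.2.1.length + r.2.2.length).bddAbove
  replace hM : ∀ r, RR φ r → r.1 ≤ j → r.2.1.length + r.2.2.length ≤ M :=
    fun r h1 h2 => hM ⟨r, ⟨h1, h2⟩, rfl⟩
  let S : ℕ → Set ℕ := fun k => {n | ¬ Tr k n ∧ ∃ x, n < (code k x).length ∧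
    ∃ m ≤ idx x, ∃ u, W (tr j) (idx x) u (el (2 * m + 1) (code k x))}
  refine ((Set.finite_le_nat M).union ((Set.finite_le_nat j).biUnion (t := S) fun k hk => ?_)).subset
    fun n h => ?_
  · by_contra hS
    have hk0 : ∀ n, ¬ Tr k n := fun n h => by
      obtain ⟨m, hm, hnm⟩ := Set.Infinite.exists_gt hS n
      exact hm.1 (h.mono hnm.le)
    obtain ⟨i, hi, hi'⟩ := exists_comp k (tr j)
    obtain ⟨t, ht⟩ := succ_of (L := Lk k) (i := i) (Set.infinite_of_forall_exists_gt fun a => by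
      obtain ⟨n, ⟨-, x, hx, h⟩, hn⟩ := Set.Infinite.exists_gt hS (code k (str a)).length
      refine ⟨idx x, by simpa [Pd, hi, hi'] using h, lt_of_not_ge fun h1 => ?_⟩
      have := length_code_mono (le_refl k) (length_str_mono h1)
      rw [str_idx] at this
      omega) (by
      refine (((col_fin hk0 (f1.subset fun r hr => ⟨hr.1, hr.2.le.trans hk⟩)).image idx).union
        (f1.image fun r => idx (cx (body ((U (tr j).fst (false :: r.2.1)
          (2 ^ r.2.1.length)).getD []))))).subset fun t ⟨⟨m, _, u, hW⟩, ht⟩ => ?_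
      rw [hi, hi'] at hW
      by_cases h1 : el (2 * m + 1) (code k (str t)) ∈ BB φ
      swap
      · exact Or.inl ⟨str t, ⟨m, by tauto⟩, idx_str t⟩
      have h2 := U_mono hW.2.2 (min_le_right _ _)
      obtain ⟨r, hr, rfl⟩ := (hP _ _ _ h2).2 h1
      refine Or.inr ⟨r, ⟨hr, by_contra fun h3 => hr.spec.1.2.2 j (by omega) ⟨hP.not_dead hφ _,
        _, _, rfl, h2, by simp, fun _ => by simpa using hW⟩⟩, by simp [h2]⟩) k
    exact hk0 _ ⟨t, le_rfl, ht⟩
  · refine (le_or_gt n M).imp_right fun hn => ?_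
    obtain ⟨u, y, hq, hr | ⟨hb | hv, hr⟩⟩ := h.spec
    · have := hM _ hr le_rfl
      have := hq.1
      dsimp only at *; omega
    · obtain ⟨r, h1, h2, h3⟩ := hb
      have := hM r (mem_St.1 h1).1 h2
      omega
    have hB : ¬ BS φ (RR φ) y := fun hB => by
      obtain ⟨r, h1, h2⟩ := (hP _ _ _ hq.2.1).2 hB
      exact hr r h1 (h2 ▸ hq.1)
    unfold Val at hv
    split_ifs at hv with h5
    · obtain ⟨hv, hT⟩ := hv
      have hW := hq.2.2.2 hv
      obtain ⟨m, hm⟩ := h5.1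
      have e : el (2 * m + 1) (code (ck (body y)) (cx (body y))) = y := by
        rw [← hv.2.1, ← hm, el_eq fun e => by simp [e] at h5]
      refine Set.mem_biUnion hv.2.2.1 ⟨hT, cx (body y), hv.2.1 ▸ h5.2, m, ?_, u, e.symm ▸ hW⟩
      have := hW.1
      have := ones_le y
      omega
    · refine absurd ?_ hB
      by_cases h6 : (body y).length ≤ n
      · exact (BS_stab hφ h6).1 hv
      have ev : Even (ones y) := by_contra fun h => h5 ⟨Nat.not_even_iff_odd.1 h, by omega⟩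
      rw [BS, if_pos ev] at hv ⊢
      exact hv.imp fun r hr => ⟨(mem_St.1 hr.1).1, hr.2⟩

end Pool.Agent.P.MP_7a71fe_lc.AC
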