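import Pool.Agent.P.MP_7a71fe_lc.AC.Univ
import Pool.Agent.P.MP_7a71fe_lc.AC.Defs
import Pool.Agent.Lib.Helper33.Sim

/-! The links between Turing machines, stack programs and the interpreter. -/

namespace Pool.Agent.P.MP_7a71fe_lc.AC

open Pool.Agent.Lib.Helper47 Pool.Agent.P.MP_ba7db8_lc Pool.Agent.Lib.Helper33.Sim Turing Turing.TM2

theorem InFP.pt {f : Str → Str} (h : InFP f) : PT f := h.elim pt_of_tm

theorem inFP_of_pt {f : Str → Str} (h : PT f) : InFP f :=
  PT.computableInPolyTime id id f h fun _ => rfl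

/-- A machine is simulated in polynomial time on padded inputs. -/
theorem exists_pad {f : Str → Str} (h : TM2ComputableInTime id id f) :
    ∃ F : Str × List Unit → Str, PT F ∧ ∀ x l, h.time x.length ≤ l.length → F (x, l) = f x := by
  classical
  have := h.tm.kFin
  have := h.tm.ΛFin
  have := h.tm.σFin
  have := h.tm.Γk₀Fin
  let A : Set (Σ k, h.tm.Γ k) := (⋃ l, pushSet (h.tm.m l)) ∪
    Set.range fun a : h.tm.Γ h.tm.k₀ => (⟨h.tm.k₀, a⟩ : Σ k, h.tm.Γ k)
  have hA : Finite A :=
    ((Set.finite_iUnion fun l => pushSet_finite _).union (Set.finite_range _)).to_subtype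
  have hM : ∀ l, pushSet (h.tm.m l) ⊆ A := fun l =>
    (Set.subset_iUnion (fun l => pushSet (h.tm.m l)) l).trans Set.subset_union_left
  let _ : Enc h.tm.Λ := Enc.ofFinite _
  let _ : Enc h.tm.σ := Enc.ofFinite _
  let _ : Enc A := Enc.ofFinite _
  let c := Finset.univ.sup fun l => depth (h.tm.m l)
  have hc : ∀ l, depth (h.tm.m l) ≤ c := fun l =>
    Finset.le_sup (f := fun l => depth (h.tm.m l)) (Finset.mem_univ l)
  let ι : Bool → A := fun b => ⟨⟨h.tm.k₀, h.inputAlphabet.symm b⟩, Or.inr ⟨_, rfl⟩⟩
  let s₀ : List Bool → Option h.tm.Λ × h.tm.σ × List A := fun x =>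
    (some h.tm.main, h.tm.initialState, x.map ι)
  have hι : PT ι := PT.of_finite _
  have hs₀ : PT s₀ := by fun_prop
  have hstep : PT (stepS A h.tm.m) := by
    have h1 := pt_cases (g := fun l (p : h.tm.σ × List A) => sim A (h.tm.m l) p.1 p.2)
      (fun l => pt_sim A _) (fun p => (none, p)) (by fun_prop)
    exact PT.optElim (o := fun c : Option h.tm.Λ × h.tm.σ × List A => c.1) (n := fun c => c)
      (c := fun c l => sim A (h.tm.m l) c.2.1 c.2.2) (by fun_prop) (by fun_prop)
      (h1.comp (g := fun y : (Option h.tm.Λ × h.tm.σ × List A) × h.tm.Λ => (y.2, y.1.2))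
        (by fun_prop))
  have hlen : ∀ x i, ((stepS A h.tm.m)^[i] (s₀ x)).2.2.length ≤ x.length + i * c := by
    intro x i
    induction i with
    | zero => simp [s₀]
    | succ i ih =>
      rw [Function.iterate_succ_apply']
      generalize (stepS A h.tm.m)^[i] (s₀ x) = t at ih
      obtain ⟨_ | l, v, L⟩ := t
      · exact ih.trans (by rw [Nat.add_mul]; omega)
      · have := length_sim A (h.tm.m l) v L
        have := hc l
        simp only [stepS, Option.elim] at *
        rw [Nat.add_mul]
        omega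
  obtain ⟨C₁, hC₁⟩ := exists_size_le (Option h.tm.Λ)
  obtain ⟨C₂, hC₂⟩ := exists_size_le h.tm.σ
  obtain ⟨C₃, hC₃⟩ := exists_size_le A
  have hit := PT.iterate (f := fun _ : Str × List Unit => stepS A h.tm.m)
    (hstep.comp (g := fun p : (Str × List Unit) × _ => p.2) (by fun_prop)) (PT.snd PT.id)
    (hs₀.comp (PT.fst PT.id))
    (fun x => C₁ + C₂ + 2 + ((x.1.length + x.2.length * c) * (C₃ + 1) + 1))
    ((PB.const _).add ((((ps_length (PT.fst PT.id)).add ((ps_length (PT.snd PT.id)).mul
      (PB.const c))).mul (PB.const _)).add (PB.const 1))) (fun x i hi => by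
      have h1 := hlen x.1 i
      generalize (stepS A h.tm.m)^[i] (s₀ x.1) = t at h1
      have h2 := size_list_le (l := t.2.2) fun y _ => hC₃ y
      have h3 : t.2.2.length * (C₃ + 1) ≤ (x.1.length + x.2.length * c) * (C₃ + 1) :=
        Nat.mul_le_mul_right _ (h1.trans (Nat.add_le_add_left (Nat.mul_le_mul_right _ hi) _))
      have := hC₁ t.1
      have := hC₂ t.2.1
      rw [size_prod, size_prod]
      omega)
  have ho : PT fun s : A => (Pool.Agent.Lib.Helper33.Sim.dec A h.tm.k₁ s).map h.outputAlphabet :=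
    PT.of_finite _
  refine ⟨fun x => ((stepS A h.tm.m)^[x.2.length] (s₀ x.1)).2.2.filterMap fun s =>
      (Pool.Agent.Lib.Helper33.Sim.dec A h.tm.k₁ s).map h.outputAlphabet,
    PT.filterMap (g := fun _ s => (Pool.Agent.Lib.Helper33.Sim.dec A h.tm.k₁ s).map
      h.outputAlphabet) (ho.comp (g := fun p : (Str × List Unit) × A => p.2) (by fun_prop))
      (PT.snd (PT.snd hit)), fun a l hl => ?_⟩
  have hcfg : ∀ x i, cfg A ((stepS A h.tm.m)^[i] (s₀ x)) =
      (run h.tm.m)^[i] (initList h.tm (x.map h.inputAlphabet.symm)) := by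
    intro x i
    induction i with
    | zero =>
      change (⟨_, _, _⟩ : Cfg _ _ _) = ⟨_, _, _⟩
      congr 1
      funext k
      change stk A (x.map ι) k = (initList h.tm (x.map h.inputAlphabet.symm)).stk k
      by_cases hk : k = h.tm.k₀
      · subst hk
        rw [initList_stk_self]
        simp [stk, List.filterMap_map, ι, dec_self]
      · rw [initList_stk_ne _ _ hk]
        simp only [stk, List.filterMap_map, List.filterMap_eq_nil_iff]
        exact fun b _ => dec_ne A (Ne.symm hk)
    | succ i ih =>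
      rw [Function.iterate_succ_apply', Function.iterate_succ_apply', cfg_stepS A _ hM, ih]
  have e := h.outputsFun a
  have e1 := iterate_run_of_evals h.tm.m e.steps _ _ e.evals_in_steps
  obtain ⟨r, hr⟩ := Nat.exists_eq_add_of_le' (e.steps_le_m.trans hl)
  have e3 : (run h.tm.m)^[e.steps] (initList h.tm (a.map h.inputAlphabet.symm)) =
      haltList h.tm ((f a).map h.outputAlphabet.symm) := e1
  have e4 := congrArg (fun c => c.stk h.tm.k₁) (hcfg a l.length)
  rw [hr, Function.iterate_add_apply (run h.tm.m), e3, iterate_run_of_halt _ rfl, ← hr] at e4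
  simp only [haltList_stk_self, cfg, stk] at e4
  dsimp only
  rw [← List.map_filterMap, e4]
  simp

theorem constr_run {s : Str → ℕ} (hs : Constr s) {F : Str → Str}
    (hF : PT (fun x : Pad Str s => F x.val)) :
    ∃ (P : Prog) (p : Polynomial ℕ), ∀ x, Run P (only x) (only (F x)) (p.eval (x.length + s x)) := by
  obtain ⟨P, p, hP⟩ := hs
  obtain ⟨u, hu⟩ := hF.size_le
  obtain ⟨Q, q, hQ⟩ := hF
  have hB : PB (fun x : List Bool => x.length + s x) (fun x => 4 * (x.length + s x) + 3) :=
    ((PB.const 4).mul PB.self).add (PB.const 3)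
  obtain ⟨r, hr⟩ : PB (fun x : List Bool => x.length + s x) (fun x =>
      (7 * (x.length + s x) + 3) + ((p.eval (4 * (x.length + s x) + 3)
        + q.eval (4 * (x.length + s x) + 3)) + (9 * u.eval (4 * (x.length + s x) + 3) + 4))) :=
    (((PB.const 7).mul PB.self).add (PB.const 3)).add (((hB.eval p).add (hB.eval q)).add
      (((PB.const 9).mul (hB.eval u)).add (PB.const 4)))
  refine ⟨Prog.seq inP (.seq (.seq P Q) outP), r, fun x => Run.mono ?_ (hr x)⟩
  have h1 := size_bits_le x
  have h2 := size_pad (⟨x⟩ : Pad (List Bool) s)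
  dsimp only at h2
  have h3 := (((hP x).mono (eval_mono p (n := 4 * (x.length + s x) + 3) (by omega))).seq
    ((hQ ⟨x⟩).mono (eval_mono q (n := 4 * (x.length + s x) + 3) (by
      change size (⟨x⟩ : Pad (List Bool) s) ≤ _
      omega)))) []
  simp only [List.append_nil] at h3
  have h4 := (hu ⟨x⟩).trans (eval_mono u (n := 4 * (x.length + s x) + 3) (by omega))
  have h5 := length_lt_size (F x)
  dsimp only at h4
  exact Run.seq ((run_in x).mono (by omega)) (Run.seq h3 ((run_outP (F x)).mono (by omega)))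

theorem U_pt {h : Str → Str} (hh : PT h) :
    ∃ (e : T) (p : Polynomial ℕ), ∀ z s, p.eval z.length ≤ s → U e z s = some (h z) := by
  obtain ⟨P, p, hP⟩ := constr_run (Constr.of_PT (PT.const 0)) (hh.comp (PT.padVal PT.id))
  exact ⟨pc P, 3 * p, fun z s hs => U_run (hP z) (by simpa using hs)⟩

theorem eval_two_pow (r : Polynomial ℕ) : ∃ c, ∀ n m, n ≤ m →
    r.eval (n + 2 ^ m) ≤ 2 ^ (c * m + c) := by
  obtain ⟨c, e, h⟩ := eval_le_pow r
  refine ⟨c + 2 * e, fun n m hm => (h _).trans ?_⟩
  have h1 : m < 2 ^ m := Nat.lt_two_pow_self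
  have h2 : (n + 2 ^ m + 1) ^ e ≤ (2 ^ (m + 1)) ^ e :=
    Nat.pow_le_pow_left (by rw [pow_succ]; omega) e
  calc c * (n + 2 ^ m + 1) ^ e ≤ 2 ^ c * (2 ^ (m + 1)) ^ e :=
        Nat.mul_le_mul Nat.lt_two_pow_self.le h2
    _ = 2 ^ (c + (m + 1) * e) := by rw [← pow_mul, pow_add]
    _ ≤ _ := Nat.pow_le_pow_right (by norm_num) (by nlinarith)

theorem U_exp {L : Set Str} (h : InEXP L) : ∃ (e : T) (p : Polynomial ℕ), ∀ x s,
    2 ^ p.eval x.length ≤ s → (U e x s = some [true] ↔ x ∈ L) := by
  obtain ⟨p, f, M, hM, hL⟩ := h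
  obtain ⟨F, hF, hf⟩ := exists_pad M
  have hc := (Constr.of_PT (pt_eval (p + Polynomial.X) (PT.length (PT.id (α := Str))))).two_pow
  obtain ⟨P, r, hP⟩ := constr_run hc (F := f)
    ((hF.comp (PT.prodMk (PT.padVal PT.id) PT.padList)).of_eq fun x => hf _ _ (by
      rw [List.length_replicate]
      exact (hM _).trans (Nat.pow_le_pow_right (by norm_num) (by simp))))
  obtain ⟨c, hc⟩ := eval_two_pow (3 * r)
  refine ⟨pc P, Polynomial.C c * (p + Polynomial.X) + Polynomial.C c, fun x s hs => ?_⟩
  have h1 := hc x.length ((p + Polynomial.X).eval x.length) (by simp)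
  rw [U_run (hP x) (le_trans (by simpa using h1) (by simpa using hs)), hL, Option.some_inj]

open Classical in
theorem inE_of {L : Set Str}
    (h : PTP fun x : Pad Str (fun x => 2 ^ (x.length + 1)) => x.val ∈ L) : InE L := by
  have hc := (Constr.of_PT (PT.add (PT.length (PT.id (α := Str))) (PT.const 1))).two_pow
  obtain ⟨P, r, hP⟩ := constr_run hc (F := fun x => [decide (x ∈ L)]) (PT.cons h (PT.const []))
  obtain ⟨c, hc⟩ := eval_two_pow r
  refine ⟨2 * c, fun x => [decide (x ∈ L)], ⟨⟨P.tm, Equiv.refl _, Equiv.refl _⟩,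
    fun n => r.eval (n + 2 ^ (n + 1)), fun a => ?_⟩, fun n => (hc n _ n.le_succ).trans
      (Nat.pow_le_pow_right (by norm_num) (by nlinarith)), fun z => by simp⟩
  have e1 : ∀ l : Str, List.map (Equiv.refl Bool).invFun l = l := List.map_id
  exact (e1 a).symm ▸ (e1 [decide (a ∈ L)]).symm ▸ Classical.choice (hP a).outputs

/-! ### pairs and the enumeration of strings -/

def fstP (y : Str) : Str := (blocks y).headD []

def sndP (y : Str) : Str := y.drop (2 * (fstP y).length + 1)

@[simp] theorem fstP_pair (x w : Str) : fstP (pair x w) = x := by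
  have : pair x w = N487b59b3.delimit x ++ w := by rw [delimit_eq, pair]; simp
  rw [this, fstP, blocks_head]

theorem length_pair (x w : Str) : (pair x w).length = 2 * x.length + 1 + w.length := by
  simp [pair, List.length_flatMap]; omega

@[simp] theorem sndP_pair (x w : Str) : sndP (pair x w) = w := by
  rw [sndP, fstP_pair, pair]
  have : (x.flatMap (fun b => [true, b]) ++ false :: w) =
      (x.flatMap (fun b => [true, b]) ++ [false]) ++ w := by simp
  rw [this, List.drop_left']
  simp [List.length_flatMap]; omega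

def idx (x : Str) : ℕ := msb x 1 - 1

theorem msb_snoc (l : Str) (b : Bool) : msb (l ++ [b]) 1 = Nat.bit b (msb l 1) := by
  rw [msb, List.foldl_append]; rfl

theorem msb_ge (x : Str) : 2 ^ x.length ≤ msb x 1 := by
  induction x using List.reverseRecOn with
  | nil => rfl
  | append_singleton l b ih => rw [msb_snoc, Nat.bit_val, List.length_append, pow_add]; simp; omega

theorem idx_ge (x : Str) : 2 ^ x.length ≤ idx x + 1 := by
  have := msb_ge x
  have := Nat.two_pow_pos x.length
  unfold idx; omega

theorem idx_lt (x : Str) : idx x < 2 ^ (x.length + 1) := by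
  have := PT.msb_lt x 1
  unfold idx; rw [pow_succ]; omega

theorem bits_msb (x : Str) : (msb x 1).bits = x.reverse ++ [true] := by
  induction x using List.reverseRecOn with
  | nil => rfl
  | append_singleton l b ih =>
    have := msb_ge l
    have := Nat.two_pow_pos l.length
    rw [msb_snoc, Nat.bits_append_bit _ _ fun h => by omega, ih]; simp

@[simp] theorem str_idx (x : Str) : str (idx x) = x := by
  have := msb_ge x
  have := Nat.two_pow_pos x.length
  rw [str, idx, Nat.sub_add_cancel (by omega), bits_msb]; simp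

theorem idx_surj (t : ℕ) : ∃ x, idx x = t := by
  have h : ∀ n : ℕ, 0 < n → ∃ x, msb x 1 = n := fun n => by
    induction n using Nat.binaryRec' with
    | zero => simp
    | bit b n hn ih =>
      intro _
      rcases Nat.eq_zero_or_pos n with rfl | h
      · exact ⟨[], by rw [hn rfl]; rfl⟩
      · obtain ⟨x, hx⟩ := ih h
        exact ⟨x ++ [b], by rw [msb_snoc, hx]⟩
  obtain ⟨x, hx⟩ := h (t + 1) t.succ_pos
  exact ⟨x, by rw [idx, hx]; rfl⟩

@[simp] theorem idx_str (t : ℕ) : idx (str t) = t := by
  obtain ⟨x, rfl⟩ := idx_surj t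
  rw [str_idx]

theorem length_str_mono {s t : ℕ} (h : s ≤ t) : (str s).length ≤ (str t).length := by
  have h1 := idx_ge (str s)
  have h2 : idx (str t) + 1 < 2 ^ ((str t).length + 1) := by
    have := PT.msb_lt (str t) 1
    have := msb_ge (str t)
    have := Nat.two_pow_pos (str t).length
    unfold idx; rw [pow_succ]; omega
  rw [idx_str] at h1 h2
  exact Nat.lt_succ_iff.1 ((Nat.pow_lt_pow_iff_right (a := 2) (by norm_num)).1 (by omega))

section
variable {α : Type} [Enc α]

@[fun_prop] theorem pt_fstP {f : α → Str} (hf : PT f) : PT fun a => fstP (f a) := by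
  have h := PT.blocks
  unfold fstP; fun_prop

@[fun_prop] theorem pt_sndP {f : α → Str} (hf : PT f) : PT fun a => sndP (f a) := by
  unfold sndP; fun_prop

@[fun_prop] theorem pt_pair {f g : α → Str} (hf : PT f) (hg : PT g) :
    PT fun a => pair (f a) (g a) := by unfold pair; fun_prop

@[fun_prop] theorem pt_idx {f : α → Str} (hf : PT f) : PT fun a => idx (f a) := by
  unfold idx; fun_prop

@[fun_prop] theorem pt_str {f : α → ℕ} (hf : PT f) : PT fun a => str (f a) := by
  unfold str; fun_prop

/-- finite modifications -/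
theorem pt_patch {β : Type} [Enc β] {f g : α → β} (hf : PT f) (h : {a | g a ≠ f a}.Finite) :
    PT g := by
  classical
  have h1 : PT fun a => if a ∈ h.toFinset.toList then some (g a) else none :=
    PT.of_table _ h.toFinset.toList none fun b hb => if_neg hb
  refine (PT.optGetD h1 hf).of_eq fun a => ?_
  by_cases ha : g a = f a <;> simp [ha]

end

/-- a one-way function -/
structure OW (φ : Str → Str) : Prop where
  pt : PT φ
  inj : Function.Injective φ
  li : ∀ u, u.length < (φ u).length
  hard : ∀ ψ : Str → Str, PT ψ → ∃ u, ψ (φ u) ≠ u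

theorem exists_ow {L : Set Str} (h : InUP L) (hn : ¬ InP L) : ∃ φ, OW φ := by
  classical
  obtain ⟨V, p, ⟨f, hf, hV⟩, h⟩ := h
  have hf := hf.pt
  let ok : Str → Prop := fun u => u = pair (fstP u) (sndP u) ∧
    (sndP u).length = p.eval (fstP u).length ∧ f u = [true]
  let en : Str → Str := fun x => true :: pair x (List.replicate (p.eval x.length) false)
  have hen : PT en := PT.cons (PT.const _) (pt_pair PT.id (PT.replicate
    (pt_eval p (PT.length PT.id)) ((ps_length PT.id).eval p) (PT.const _)))
  have en_inj : ∀ x y, en x = en y → x = y := fun x y e => by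
    simpa [en] using congrArg (fun l => fstP l.tail) e
  let φ : Str → Str := fun u => if ok u then en (fstP u) else false :: u
  have hφ : PT φ := PTP.ite ((PTP.eq PT.id (by fun_prop)).and ((PTP.eq (by fun_prop)
    (pt_eval p (by fun_prop))).and (PTP.eq hf (PT.const _)))) (by fun_prop) (by fun_prop)
  have h1 : ∀ u x, φ u = en x → ok u ∧ fstP u = x := fun u x e => by
    by_cases hu : ok u
    · exact ⟨hu, en_inj _ _ ((if_pos hu).symm.trans e)⟩
    · simp [φ, hu, en] at e
  refine ⟨φ, hφ, fun u v e => ?_, fun u => ?_, fun ψ hψ => ?_⟩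
  · by_cases hv : ok v
    · obtain ⟨hu, e1⟩ := h1 u _ (e.trans (if_pos hv))
      have e2 := (h (fstP v)).2 (x := sndP u) (y := sndP v)
        ⟨e1 ▸ hu.2.1, (hV _).2 (e1 ▸ hu.1 ▸ hu.2.2)⟩ ⟨hv.2.1, (hV _).2 (hv.1 ▸ hv.2.2)⟩
      rw [hu.1, hv.1, e1, e2]
    · by_cases hu : ok u
      · exact absurd (h1 v _ (e.symm.trans (if_pos hu))).1 hv
      · simpa [φ, hu, hv] using e
  · by_cases hu : ok u
    · have := congrArg List.length hu.1
      simp only [φ, if_pos hu, en, List.length_cons, length_pair, List.length_replicate] at this ⊢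
      have := hu.2.1
      omega
    · simp [φ, hu]
  · by_contra h2
    push Not at h2
    refine hn ⟨fun x => [decide (φ (ψ (en x)) = en x)], inFP_of_pt (PT.cons (PT.decEq (by fun_prop)
      hen) (PT.const _)), fun x => ?_⟩
    simp only [List.cons.injEq, decide_eq_true_eq, and_true]
    rw [(h x).1]
    constructor
    · rintro ⟨w, hw, hv⟩
      have h3 : φ (pair x w) = en x := by
        simp only [φ, ok, fstP_pair, sndP_pair, hw, (hV _).1 hv, and_self, if_true]
      rw [← h3, h2]
    · intro e
      obtain ⟨hu, e1⟩ := h1 _ _ e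
      generalize ψ (en x) = u at hu e1
      subst e1
      exact ⟨sndP u, hu.2.1, (hV _).2 (hu.1 ▸ hu.2.2)⟩

end Pool.Agent.P.MP_7a71fe_lc.AC
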