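import Pool.Agent.P.MP_7a71fe_lc.AC.Cons

/-! Running times of the construction. -/

namespace Pool.Agent.P.MP_7a71fe_lc.AC

open Pool.Agent.Lib.Helper47 Pool.Agent.P.MP_ba7db8_lc
open scoped Classical

variable {α β : Type} [Enc α] [Enc β]

theorem ptp_guard {p q : α → Prop} (hp : PTP p) (hq : PTP fun x : {a // p a} => q x.1) :
    PTP fun a => p a ∧ q a :=
  PT.cond' (c := fun a => decide (p a)) hp.dec
    ((hq.comp (PT.subtypeMk (PT.val PT.id) fun x => of_decide_eq_true x.2)).of_iff
      fun x => (and_iff_right (of_decide_eq_true x.2)).symm)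
    ((PT.const false).of_eq fun x => by simp [of_decide_eq_false x.2])

theorem ptp_iff {p q : α → Prop} (hp : PTP p) (hq : PTP q) : PTP fun a => p a ↔ q a :=
  ((hp.imp hq).and (hq.imp hp)).of_iff fun _ => iff_def.symm

theorem ptp_lex {l : α → List β} {q : α → β → Prop} (hl : PT l)
    (hq : PTP fun y : α × β => q y.1 y.2) : PTP fun a => ∃ x, x ∈ l a ∧ q a x :=
  (PT.any (g := fun a x => decide (q a x)) hq.dec hl).of_eq fun a => by
    rw [Bool.eq_iff_iff]; simp

theorem ptp_even {f : α → ℕ} (hf : PT f) : PTP fun a => Even (f a) :=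
  (PTP.eq (PT.mod hf (PT.const 2)) (PT.const 0)).of_iff fun _ => Nat.even_iff.symm

theorem ptp_odd {f : α → ℕ} (hf : PT f) : PTP fun a => Odd (f a) :=
  (ptp_even hf).not.of_iff fun _ => Nat.not_even_iff_odd

theorem pt_min {n : α → ℕ} (hn : PT n) : PT fun y : α × ℕ => min y.2 (n y.1) := by fun_prop

theorem ps_min {n : α → ℕ} (hb : PS n) : PS fun y : α × ℕ => min y.2 (n y.1) :=
  (ps_fst hb).mono fun _ => min_le_right _ _

theorem ps_val {p : α → Prop} {n : α → ℕ} (hb : PS n) : PS fun x : {a // p a} => n x.1 :=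
  ps_comp hb (PT.val PT.id)

theorem pt_rmap {n : α → ℕ} {g : α → ℕ → β} (hn : PT n) (hb : PS n)
    (hg : PT fun y : α × ℕ => g y.1 (min y.2 (n y.1))) :
    PT fun a => (List.range (n a)).map (g a) :=
  (PT.map (g := fun a i => g a (min i (n a))) hg (PT.range hn hb)).of_eq fun _ =>
    List.map_congr_left fun _ hi => by rw [min_eq_left (List.mem_range.1 hi).le]

theorem ptp_bex {n : α → ℕ} {q : α → ℕ → Prop} (hn : PT n) (hb : PS n)
    (hq : PTP fun y : α × ℕ => q y.1 (min y.2 (n y.1))) : PTP fun a => ∃ i < n a, q a i :=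
  (PTP.bex (q := fun a i => q a (min i (n a))) hn hb hq).of_iff fun _ =>
    exists_congr fun _ => and_congr_right fun hi => by rw [min_eq_left hi.le]

theorem pt_prod {l : α → List ℕ} (hl : PT l) : PT fun a => (l a).prod := by
  have h : ∀ u : List ℕ, u.prod < 2 ^ size u := fun u => by
    induction u with
    | nil => decide
    | cons x u ih =>
      rw [List.prod_cons, size_cons, pow_succ, pow_add]
      have := Nat.mul_lt_mul'' (lt_two_pow_size x) ih
      omega
  refine (PT.foldl (f := fun _ t x => t * x) (by fun_prop) hl (PT.const 1)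
    (fun a => 4 * size (l a) + 1) (((PB.const 4).mul hl.size_le).add (PB.const 1))
    fun a u hu => ?_).of_eq fun a => List.prod_eq_foldl.symm
  have h1 := size_nat_le_of_lt_pow (h u)
  have h2 := size_sublist hu.sublist
  rw [List.prod_eq_foldl] at h1
  omega

/-- `2 ^ n` is polynomially bounded -/
def Lg (n : α → ℕ) : Prop := PS fun a => 2 ^ n a

theorem Lg.ps {n : α → ℕ} (h : Lg n) : PS n := PB.mono h fun _ => Nat.lt_two_pow_self.le

theorem Lg.pt {n : α → ℕ} (h : Lg n) (hn : PT n) : PT fun a => 2 ^ n a :=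
  PT.pow (PT.const 2) hn h.ps

theorem Lg.succ {n : α → ℕ} (h : Lg n) : Lg fun a => n a + 1 :=
  (PB.mul h (PB.const 2)).mono fun _ => (pow_succ _ _).le

theorem Lg.le {m n : α → ℕ} (h : Lg n) (hm : ∀ a, m a ≤ n a) : Lg m :=
  PB.mono h fun a => Nat.pow_le_pow_right two_pos (hm a)

theorem Lg.fst {n : α → ℕ} (h : Lg n) : Lg fun y : α × β => n y.1 := ps_fst h

theorem Lg.val {p : α → Prop} {n : α → ℕ} (h : Lg n) : Lg fun x : {a // p a} => n x.1 := ps_val h

@[fun_prop] theorem pt_tr {n : α → ℕ} (hn : PT n) : PT fun a => tr (n a) := by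
  unfold tr; fun_prop

@[fun_prop] theorem pt_ck {v : α → Str} (hv : PT v) : PT fun a => ck (v a) := by
  unfold ck; fun_prop

theorem ps_ck {v : α → Str} (hv : PT v) : PS fun a => ck (v a) := ps_length (pt_fstP hv)

@[fun_prop] theorem pt_cx {v : α → Str} (hv : PT v) : PT fun a => cx (v a) := by
  unfold cx; fun_prop

@[fun_prop] theorem pt_ones {v : α → Str} (hv : PT v) : PT fun a => ones (v a) := by
  unfold ones; fun_prop

@[fun_prop] theorem pt_body {v : α → Str} (hv : PT v) : PT fun a => body (v a) := by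
  unfold body; fun_prop

@[fun_prop] theorem pt_kk {i : α → ℕ} (hi : PT i) : PT fun a => kk (i a) :=
  PT.half (f := fun a => (tr (i a)).fst.enc.length)
    (PT.length ((PT.code (α := T)).comp (pt_tfst (pt_tr hi))))

theorem ps_kk {i : α → ℕ} (hi : PT i) : PS fun a => kk (i a) :=
  (pt_tfst (pt_tr hi)).size_le.mono fun _ => Nat.div_le_self _ _

theorem pt_el {m : α → ℕ} {v : α → Str} (hm : PT m) (hb : PS m) (hv : PT v) :
    PT fun a => el (m a) (v a) :=
  PT.append (PT.replicate hm hb (PT.const _)) (PT.cons (PT.const _) hv)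

theorem pt_clen {k : α → ℕ} {x : α → Str} (hk : PT k) (hb : PS k) (hx : PT x) :
    PT fun a => (code (k a) (x a)).length := by
  have h := PT.pow (PT.add (PT.length hx) (PT.const 2)) hk hb
  simp only [length_code]
  fun_prop

theorem pt_code {k : α → ℕ} {x : α → Str} (hk : PT k) (hx : PT x)
    (hb : PS fun a => (code (k a) (x a)).length) : PT fun a => code (k a) (x a) := by
  have h : PS k := hb.mono fun a => by rw [length_code]; omega
  exact pt_pair (PT.replicate hk h (PT.const _)) (pt_pair hx (PT.replicate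
    (PT.pow (PT.add (PT.length hx) (PT.const 2)) hk h)
    (hb.mono fun a => by rw [length_code]; omega) (PT.const _)))

theorem ptp_isC {v : α → Str} (hv : PT v) : PTP fun a => IsC (v a) :=
  (ptp_guard (q := fun a => IsC (v a)) (PTP.eq (pt_clen (pt_ck hv) (ps_ck hv) (pt_cx hv))
    (PT.length hv)) (PTP.eq (by fun_prop) (pt_code (by fun_prop) (by fun_prop)
      ((ps_val (ps_length hv)).mono fun x => x.2.le)))).of_iff fun _ =>
    and_iff_right_of_imp fun h => (congrArg List.length h).symm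

theorem ptp_W {τ : α → T} {t : α → ℕ} {u y : α → Str} (hτ : PT τ) (ht : PT t) (hu : PT u)
    (hy : PT y) (hb : PS fun a => min (t a) (2 ^ (u a).length)) :
    PTP fun a => W (τ a) (t a) (u a) (y a) := by
  have h := PT.min ht (PT.pow (PT.const 2) (PT.length hu) (ps_length hu))
  exact (PTP.le (by fun_prop) ht).and ((PTP.eq (pt_U (by fun_prop) hy h hb) (by fun_prop)).and
    (PTP.eq (pt_U (by fun_prop) (by fun_prop) h hb) (by fun_prop)))

theorem ptp_Pd {i t : α → ℕ} (hi : PT i) (ht : PT t) (hb : PS t) : PTP fun a => Pd (i a) (t a) := by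
  let y : α → ℕ → Str := fun a m => el (2 * m + 1) (code (kk (i a)) (str (t a)))
  refine (ptp_guard (p := fun a => (code (kk (i a)) (str (t a))).length ≤ t a)
    (q := fun a => ∃ m < t a + 1, W (tr (i a)).snd (t a)
      ((U (tr (i a)).snd.snd (y a m) (t a)).getD []).tail (y a m))
    (PTP.le (pt_clen (pt_kk hi) (ps_kk hi) (pt_str ht)) ht) ?_).of_iff fun a => ?_
  · have h1 := (ps_val (p := fun a => (code (kk (i a)) (str (t a))).length ≤ t a) hb)
    have h2 := h1.add (PB.const 1)
    have hy := pt_el (PT.add (PT.mul (PT.const 2) (pt_min (PT.add (ht.comp (PT.val PT.id))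
      (PT.const 1)))) (PT.const 1)) (((PB.const 2).mul (ps_min h2)).add (PB.const 1))
      ((pt_code (by fun_prop) (by fun_prop) (h1.mono fun x => x.2)).comp (PT.fst PT.id))
    exact ptp_bex (by fun_prop) h2 (ptp_W (by fun_prop) (by fun_prop) (PT.tail (PT.optGetD
      (pt_U (by fun_prop) hy (by fun_prop) (ps_fst h1)) (PT.const _))) hy
      ((ps_fst h1).mono fun _ => min_le_left _ _))
  · refine ⟨fun ⟨_, m, hm, h⟩ => ⟨m, by omega, _, h⟩, fun ⟨m, hm, u, h⟩ => ⟨?_, m, by omega, ?_⟩⟩
    · have := h.1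
      rw [length_el] at this; omega
    · rw [U_mono h.2.1 (min_le_left _ _)]; exact h

theorem pt_PP {i : α → ℕ} {w : α → Str} (hi : PT i) (hw : PT w) : PT fun a => PP (i a) (w a) := by
  have h1 : PS fun a => (w a).length - i a := (ps_length hw).mono fun _ => Nat.sub_le _ _
  refine (pt_prod (PT.map (g := fun a k => fac (i a) (min (i a + k) (w a).length)
    ((w a).getD (i a + k) false)) (PTP.ite (ptp_Pd (by fun_prop) (by fun_prop)
      ((ps_fst (ps_length hw)).mono fun _ => min_le_right _ _)) (by fun_prop) (PT.const _))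
    (PT.range (by fun_prop) h1))).of_eq fun a => ?_
  rw [PP, Finset.prod_Ico_eq_prod_range, ← List.toFinset_range, List.prod_toFinset _
    List.nodup_range]
  exact congrArg _ (List.map_congr_left fun k hk => by
    rw [min_eq_left (by have := List.mem_range.1 hk; omega)])

theorem pt_DD {w : α → Str} (hw : PT w) : PT fun a => DD (w a) :=
  (PT.add (PT.const 2) (PT.sum (PT.map (g := fun a i => PP i (w a)) (pt_PP (by fun_prop)
    (by fun_prop)) (PT.rangeLength hw)))).of_eq fun a => by
      rw [DD, ← List.toFinset_range, List.sum_toFinset _ List.nodup_range]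

theorem mart_DD : Mart DD :=
  ⟨PT.computableInPolyTime _ _ _ (PT.bits (pt_DD PT.id)) fun _ => (encodeNat_eq _).symm, DD_fair⟩

theorem ptp_Lk {k : α → ℕ} {x : α → Str} (hk : PT k) (hx : PT x)
    (hb : Lg fun a => (code (k a) (x a)).length) : PTP fun a => x a ∈ Lk (k a) :=
  PTP.eq (pt_U (by fun_prop) hx (hb.pt (pt_clen hk (hb.ps.mono fun a => by
    rw [length_code]; omega) hx)) hb) (PT.const _)

theorem ptp_Tr {k n : α → ℕ} (hk : PT k) (hk' : PS k) (hn : PT n) (hb : Lg n) :
    PTP fun a => Tr (k a) (n a) := by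
  have h1 := hb.succ
  have h2 := h1.pt (PT.add hn (PT.const 1))
  have h3 := pt_min h2
  refine (ptp_bex (q := fun a t => (code (k a) (str t)).length ≤ n a ∧
    k a * 2 ^ t ≤ DD (pre (Lk (k a)) t)) h2 h1 (ptp_guard (PTP.le (pt_clen (by fun_prop)
      (ps_fst hk') (pt_str h3)) (by fun_prop)) (PTP.le (PT.mul (by fun_prop) (PT.pow (PT.const 2)
        (h3.comp (PT.val PT.id)) (ps_val (ps_min h1)))) (pt_DD (pt_rmap (h3.comp (PT.val PT.id))
        (ps_val (ps_min h1)) (PTP.dec (ptp_Lk (by fun_prop) (pt_str (pt_min (h3.comp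
          (PT.val PT.id)))) (hb.fst.val.fst.le fun y =>
            (length_code_mono le_rfl (length_str_mono (min_le_right _ _))).trans
              y.1.2)))))))).of_iff fun a => exists_congr fun t => and_iff_right_of_imp fun h => ?_
  have h4 := idx_lt (str t)
  have h5 := h.1
  rw [length_code] at h5
  rw [idx_str] at h4
  exact h4.trans_le (Nat.pow_le_pow_right two_pos (by omega))

theorem ptp_C0 {v : α → Str} (hv : PT v) (hb : Lg fun a => (v a).length) :
    PTP fun a => C0 (v a) :=
  (PTP.eq hv (PT.const _)).or (ptp_guard (ptp_isC hv) ((ptp_Lk (by fun_prop) (by fun_prop)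
    (hb.val.le fun x => (congrArg List.length x.2).ge)).and
      ((ptp_Tr (pt_ck hv) (ps_ck hv) (PT.length hv) hb).comp (PT.val PT.id)).not))

variable {φ : Str → Str} (hφ : PT φ) {S : α → List Rc} {n j : α → ℕ} {u y : α → Str}
include hφ

theorem ptp_BS (hS : PT S) (hy : PT y) (hb : Lg n)
    (h : ∀ a, Odd (ones (y a)) → (body (y a)).length ≤ n a) :
    PTP fun a => BS φ (· ∈ S a) (y a) :=
  (((ptp_even (pt_ones hy)).and (ptp_lex (q := fun a r => φ r.2.1 = body (y a)) hS
    (PTP.eq (by fun_prop) (by fun_prop)))).or ((ptp_guard (q := fun a => C0 (body (y a)))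
      (ptp_odd (pt_ones hy)) (ptp_C0 (by fun_prop) (hb.val.le fun x => h _ x.2))).and
    (ptp_lex (q := fun a r => Odd (ones r.2.2) ∧ body r.2.2 = body (y a) ∧
      r.2.1.length < (body (y a)).length) hS ((ptp_odd (by fun_prop)).and ((PTP.eq (by fun_prop)
        (by fun_prop)).and (PTP.lt (by fun_prop) (by fun_prop))))).not)).of_iff fun a => by
    rw [BS, ← Nat.not_even_iff_odd]
    split_ifs with h <;> simp [h]

theorem ptp_AS (hS : PT S) (hy : PT y) (hb : Lg n) (h : ∀ a, (y a).length ≤ n a) :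
    PTP fun a => AS φ (· ∈ S a) (y a) :=
  ((PTP.eq hy (PT.const [])).or (((PTP.eq (PT.head? hy) (PT.const (some false))).and
    (ptp_lex (q := fun a r => r.2.1 = (y a).tail) hS (PTP.eq (by fun_prop) (by fun_prop)))).or
    ((PTP.eq (PT.head? hy) (PT.const (some true))).and (ptp_BS hφ hS (PT.tail hy) hb fun a _ =>
      (length_body _).trans (by have := h a; simp; omega))))).of_iff fun a => by
    rcases y a with _ | ⟨_ | _, z⟩ <;> simp [AS]

theorem ptp_Dead (hS : PT S) (hn : PT n) (hb : Lg n) (hj : PT j) :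
    PTP fun a => Dead φ (· ∈ S a) (n a) (j a) := by
  have h1 := hb.succ
  let o : α × ℕ → Option Str := fun y => U (tr (j y.1)).fst (str y.2) (2 ^ n y.1)
  have ho : PT o := pt_U (by fun_prop) (by fun_prop) ((hb.pt hn).comp (PT.fst PT.id))
    (ps_fst hb)
  refine (PTP.bex (q := fun a t => ((str t).length < n a ∧ ((o (a, t)).getD []).length < n a) ∧
    o (a, t) = some ((o (a, t)).getD []) ∧
      ¬ (AS φ (· ∈ S a) (str t) ↔ BS φ (· ∈ S a) ((o (a, t)).getD [])))
    (h1.pt (PT.add hn (PT.const 1))) h1 (ptp_guard ((PTP.lt (by fun_prop)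
      (by fun_prop)).and (PTP.lt (by fun_prop) (by fun_prop))) ((PTP.eq (by fun_prop)
        (by fun_prop)).and (ptp_iff (ptp_AS hφ (by fun_prop) (by fun_prop) hb.fst.val
          fun x => x.2.1.le) (ptp_BS hφ (by fun_prop) (by fun_prop) hb.fst.val
          fun x _ => (length_body _).trans x.2.2.le)).not))).of_iff fun a =>
    ⟨fun ⟨t, _, h, h'⟩ => ⟨_, _, h.1, h.2, h'⟩, fun ⟨z, y, h2, h3, h4, h5⟩ => ⟨idx z,
      (idx_lt z).trans_le (Nat.pow_le_pow_right two_pos (by omega)), ?_⟩⟩
  simp only [o, str_idx, h4, Option.getD_some]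
  exact ⟨⟨h2, h3⟩, trivial, h5⟩

omit hφ in
theorem ptp_Rsv (hj : PT j) (hn : PT n) (hy : PT y) : PTP fun a => Rsv (j a) (n a) (y a) :=
  (ptp_odd (pt_ones hy)).and ((ptp_isC (pt_body hy)).and ((PTP.le (by fun_prop) hj).and
    (PTP.lt hn (by fun_prop))))

theorem ptp_Req (hn : PT n) (hb : Lg n) (hj : PT j) (hu : PT u) (hy : PT y) :
    PTP fun a => Req φ (n a) (j a) (u a) (y a) := by
  have h1 : PTP fun a => U (tr (j a)).fst (false :: u a) (2 ^ n a) = some (y a) :=
    PTP.eq (pt_U (by fun_prop) (by fun_prop) (hb.pt hn) hb) (PT.some hy)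
  have h2 := ((ptp_even (pt_ones hy)).and (PTP.eq (pt_body hy) (hφ.comp hu))).not
  have h3 : PTP fun x : {a // (u a).length = n a} =>
      W (tr (j x.1)) (idx (cx (body (y x.1)))) (u x.1) (y x.1) :=
    ptp_W (by fun_prop) (by fun_prop) (by fun_prop) (by fun_prop)
      (PB.mono hb.val fun x => (min_le_right _ _).trans_eq (congrArg _ x.2))
  have v : PT fun x : {a // (u a).length = n a} => x.1 := PT.val PT.id
  exact ptp_guard (PTP.eq (PT.length hu) hn) ((h1.comp v).and ((h2.comp v).and
    (((ptp_Rsv hj hn hy).comp v).imp h3)))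

theorem pt_cu (hn : PT n) (hb : Lg n) (hj : PT j) : PT fun a => cu φ (n a) (j a) := by
  have h1 := hb.succ
  have h2 : PT fun y : α × Str => n y.1 := by fun_prop
  have h3 : PT fun y : α × Str => (U (tr (j y.1)).fst (false :: y.2) (2 ^ n y.1)).getD [] :=
    PT.optGetD (pt_U (by fun_prop) (by fun_prop) (hb.fst.pt h2) hb.fst) (PT.const [])
  have h4 : PTP fun y : α × Str => ∃ z, Req φ (n y.1) (j y.1) y.2 z :=
    (ptp_Req hφ h2 hb.fst (by fun_prop) (PT.snd PT.id) h3).of_iff fun y =>
      ⟨fun h => ⟨_, h⟩, fun ⟨_, h⟩ => by rwa [h.2.1]⟩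
  exact PT.optGetD (PT.find? (g := fun a u => decide (∃ z, Req φ (n a) (j a) u z)) h4.dec
    (PT.map (by fun_prop) (PT.range (h1.pt (PT.add hn (PT.const 1))) h1))) (PT.const _)

theorem pt_cy (hn : PT n) (hb : Lg n) (hj : PT j) :
    PT fun a => cy φ (n a) (j a) :=
  PT.optGetD (pt_U (by fun_prop) (PT.cons (PT.const _) (pt_cu hφ hn hb hj)) (hb.pt hn) hb)
    (PT.const _)

theorem ptp_Val (hS : PT S) (hn : PT n) (hb : Lg n) (hj : PT j) (hy : PT y) :
    PTP fun a => Val φ (· ∈ S a) (n a) (j a) (y a) := by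
  have h := (ptp_odd (pt_ones hy)).and (PTP.lt hn (PT.length (pt_body hy)))
  refine ((h.and ((ptp_Rsv hj hn hy).and (ptp_Tr (pt_ck (pt_body hy)) (ps_ck (pt_body hy))
    hn hb).not)).or (ptp_guard (q := fun a => BS φ (· ∈ S a) (y a)) h.not (ptp_BS hφ (by fun_prop)
      (by fun_prop) hb.val fun x h => le_of_not_gt fun h' => x.2 ⟨h, h'⟩))).of_iff fun a => ?_
  unfold Val
  split_ifs <;> tauto

theorem pt_act (hS : PT S) (hn : PT n) (hb : Lg n) :
    PT fun a => act φ (S a) (n a) := by
  have h1 : PT fun y : α × ℕ => S y.1 := by fun_prop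
  have h2 : PT fun y : α × ℕ => n y.1 := by fun_prop
  have h3 := pt_cu hφ h2 hb.fst (PT.snd PT.id)
  have h4 := pt_cy hφ h2 hb.fst (PT.snd PT.id)
  exact PT.optElim (PT.find? (PTP.dec (((ptp_Dead hφ h1 h2 hb.fst (PT.snd PT.id)).not.and
    (ptp_Req hφ h2 hb.fst (PT.snd PT.id) h3 h4)).of_iff fun _ => and_congr_right fun _ =>
      ⟨fun h => ⟨_, _, h⟩, req_cu⟩)) (PT.range hn hb.ps)) (PT.const _)
    (PTP.ite ((ptp_lex (q := fun (y : α × ℕ) (r : Rc) => r.1 ≤ y.2 ∧ n y.1 ≤ r.2.2.length) h1
      ((PTP.le (by fun_prop) (by fun_prop)).and (PTP.le (by fun_prop) (by fun_prop)))).or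
      (ptp_Val hφ h1 h2 hb.fst (PT.snd PT.id) h4)) (PT.const _) (by fun_prop))

theorem pt_St (hn : PT n) (hb : Lg n) : PT fun a => St φ (n a) := by
  refine (PT.foldl_add (f := fun a S i => act φ S (min i (n a)) ++ S) (PT.append (pt_act hφ
    (by fun_prop) (by fun_prop) (hb.fst.le fun _ => min_le_right _ _)) (by fun_prop))
    (PT.range hn hb.ps) (PT.const []) (fun a => 16 * 2 ^ n a + 16)
    (((PB.const 16).mul hb).add (PB.const _)) fun a S i _ => ?_).of_eq fun a =>
      List.foldl_ext _ _ _ fun S i hi => ?_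
  · have h1 := size_append (act φ S (min i (n a))) S
    have h2 : min i (n a) < 2 ^ min i (n a) := Nat.lt_two_pow_self
    have h3 := Nat.pow_le_pow_right two_pos (min_le_right i (n a))
    generalize min i (n a) = m at *
    have : size (act φ S m) ≤ 16 * 2 ^ m + 16 := by
      unfold act
      cases e : (List.range m).find? fun j => decide (Wants φ (· ∈ S) m j) with
      | none => simp
      | some j =>
        have h4 := List.mem_range.1 (List.mem_of_find?_eq_some e)
        have h5 := List.find?_some e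
        replace h5 := req_cu (of_decide_eq_true h5).2
        have h6 := U_len h5.2.1
        have h7 := h5.1
        have := size_nat_le j
        have := size_bits_le (cu φ m j)
        have := size_bits_le (cy φ m j)
        rw [Option.elim_some]
        split_ifs <;> simp at * <;> omega
    omega
  · rw [min_eq_left (List.mem_range.1 hi).le]

omit hφ in
theorem inE_both (hφ : OW φ) : InE (AA φ) ∧ InE (BB φ) := by
  have h1 : PT fun x : Pad Str (fun x => 2 ^ (x.length + 1)) => x.val := PT.padVal PT.id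
  have h2 : Lg fun x : Pad Str (fun x => 2 ^ (x.length + 1)) => x.val.length :=
    Lg.le (n := fun x => x.val.length + 1) PS.padLen fun _ => Nat.le_succ _
  have h3 := pt_St hφ.pt (PT.length h1) h2
  exact ⟨inE_of ((ptp_AS hφ.pt h3 h1 h2 fun _ => le_rfl).of_iff fun _ => AS_stab hφ le_rfl),
    inE_of ((ptp_BS hφ.pt h3 h1 h2 fun _ _ => length_body _).of_iff fun _ =>
      BS_stab hφ (length_body _))⟩

end Pool.Agent.P.MP_7a71fe_lc.AC
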