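import Pool.Agent.P.MP_7a71fe_lc.AC.Fin
import Pool.Agent.P.MP_7a71fe_lc.AC.Poly

/-! Reductions, non-isomorphism and almost completeness. -/

namespace Pool.Agent.P.MP_7a71fe_lc.AC

open Pool.Agent.Lib.Helper47 Pool.Agent.P.MP_ba7db8_lc
open scoped Classical

variable {φ : Str → Str}

theorem poly_lt {g : ℕ → ℕ} (h : PB id g) : ∃ N, ∀ n, N ≤ n → g n < 2 ^ n := by
  obtain ⟨p, hp⟩ := h
  obtain ⟨c, e, h⟩ := eval_le_pow p
  obtain ⟨N, hN⟩ := Filter.eventually_atTop.1 ((isLittleO_pow_const_const_pow_of_one_lt (R := ℝ) e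
    one_lt_two).const_mul_left (2 * (c + 1))).eventuallyLE
  refine ⟨N, fun n hn => ?_⟩
  have h1 := hN (n + 1) (by omega)
  rw [Real.norm_of_nonneg (by positivity), Real.norm_of_nonneg (by positivity)] at h1
  have h2 : 2 * (c + 1) * (n + 1) ^ e ≤ 2 ^ (n + 1) := by exact_mod_cast h1
  have h3 : g n ≤ c * (n + 1) ^ e := (hp n).trans (h n)
  have h4 : 0 < (n + 1) ^ e := by positivity
  rw [pow_succ] at h2
  nlinarith

theorem not_iso (hφ : OW φ) : ¬ Iso (AA φ) (BB φ) := by
  rintro ⟨h, ⟨h1, hr⟩, h2⟩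
  obtain ⟨e, p, he⟩ := U_pt h1.pt
  obtain ⟨e', p', he'⟩ := U_pt h2.pt
  obtain ⟨j, hj⟩ : ∃ j, tr j = .cons e e' := ⟨_, tr_idx _⟩
  have j1 : (tr j).fst = e := by rw [hj]; rfl
  have j2 : (tr j).snd = e' := by rw [hj]; rfl
  have hP : PV φ j := fun z y s hU => by
    rw [j1] at hU; rw [U_uniq hU (he z _ le_rfl)]; exact hr z
  obtain ⟨N, hN⟩ := ch_bound (j := j + 1) fun j' _ => fin_ch hφ j'
  obtain ⟨Q, hQ⟩ : PB id fun n => n + 2 + p.eval (n + 1) :=
    (PB.self.add (PB.const 2)).add ((PB.self.add (PB.const 1)).eval p)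
  obtain ⟨R, hR⟩ : PB id fun n => Q.eval n + p'.eval (Q.eval n) :=
    (PB.self.eval Q).add ((PB.self.eval Q).eval p')
  simp only [id] at hQ hR
  obtain ⟨N1, hN1⟩ := poly_lt (PB.self.eval R)
  obtain ⟨N2, hN2⟩ := poly_lt (g := fun l => R.eval (2 * j + 1 + (2 * l + 1 + (l + 2) ^ j)))
    (((PB.const _).add ((((PB.const 2).mul PB.self).add (PB.const 1)).add
      ((PB.self.add (PB.const 2)).pow j))).eval R)
  have hy : ∀ u : Str, (h (false :: u)).length ≤ Q.eval u.length := fun u =>
    (U_len (he (false :: u) _ le_rfl)).trans (hQ _)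
  have key : ∀ u : Str, N + j + N1 + (code j (rep N2)).length < u.length →
      Even (ones (h (false :: u))) ∧ body (h (false :: u)) = φ u := fun u hu => by
    by_contra hn
    have a1 := hQ u.length
    have a2 := hR u.length
    have a3 : R.eval u.length < _ := hN1 u.length (by omega)
    have ex : Wants φ (· ∈ St φ u.length) u.length j := ⟨hP.not_dead hφ _, u, _, rfl,
      j1 ▸ he _ _ (by rw [List.length_cons]; omega), hn, fun hv => by
        have a4 := hv.2.2.2.trans_le ((congrArg List.length hv.2.1).trans_le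
          (length_code_mono hv.2.2.1 le_rfl))
        generalize cx (body (h (false :: u))) = x at a4
        have a5 := hN2 x.length (le_of_not_gt fun h => by
          have := length_code_mono (le_refl j) (x := x) (x' := rep N2) (by simpa using h.le)
          omega)
        rw [length_code] at a4
        have a6 := eval_mono R a4.le
        have a7 := idx_ge x
        have a8 := hy u
        have a9 := eval_mono p' a8
        exact ⟨by omega, j2 ▸ (he' _ _ (by omega)).trans (by simp),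
          j1 ▸ he _ _ (by rw [List.length_cons]; omega)⟩⟩
    have a4 := Nat.find_min' ⟨j, ex⟩ ex
    have := hN u.length _ (Nat.lt_succ_of_le a4)
      ⟨by omega, Nat.find_spec ⟨j, ex⟩, fun _ => Nat.find_min ⟨j, ex⟩⟩
    omega
  generalize N + j + N1 + (code j (rep N2)).length = M at key
  have q1 : PT fun v : Str => Q.eval v.length := pt_eval Q (PT.length PT.id)
  have q2 : PS fun v : Str => Q.eval v.length := (ps_length PT.id).eval Q
  obtain ⟨u, hu⟩ := hφ.hard (fun v => (((List.range (2 ^ (M + 1))).map str ++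
    (List.range (Q.eval v.length + 1)).map fun m => (h.symm (el m v)).tail).find?
      fun u => φ u == v).getD []) (PT.optGetD (PT.find? (PT.beq (hφ.pt.comp (PT.snd PT.id))
        (PT.fst PT.id)) (PT.append (PT.const _) (pt_rmap (by fun_prop) (q2.add (PB.const 1))
          (PT.tail (h2.pt.comp (pt_el (pt_min (q1.add (PT.const 1))) (ps_min (q2.add (PB.const 1)))
            (PT.fst PT.id))))))) (PT.const _))
  refine hu ?_
  cases e : List.find? (fun v => φ v == φ u) _ with
  | some w => simpa using hφ.inj (by simpa using List.find?_some e)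
  | none =>
    refine absurd (by simp) (List.find?_eq_none.1 e u (List.mem_append.2 ?_))
    refine (le_or_gt u.length M).imp (fun h => List.mem_map.2 ⟨idx u, List.mem_range.2
      ((idx_lt u).trans_le (Nat.pow_le_pow_right two_pos (by omega))), str_idx u⟩) fun hM => ?_
    have b1 := (key u hM).2
    have b2 := hφ.li u
    refine List.mem_map.2 ⟨ones (h (false :: u)), List.mem_range.2 (Nat.lt_succ_of_le
      ((ones_le _).trans ((hy u).trans (eval_mono Q b2.le)))), ?_⟩
    rw [← b1, el_eq fun e => by simp [← b1, e] at b2]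
    simp

theorem oneLi_AB (hφ : OW φ) : OneLi (AA φ) (BB φ) := by
  have h := hφ.pt
  refine ⟨fun z => if z.head? = some false then false :: φ z.tail else true :: z,
    ⟨inFP_of_pt (by fun_prop), fun z => ?_⟩, fun z z' e => ?_, fun z => ?_⟩
  · rcases z with _ | ⟨_ | _, z⟩ <;>
      simp [AA, BB, AS, BS, C0, hφ.inj.eq_iff, Nat.even_add_one, show ones [] = 0 from rfl,
        show body [] = [] from rfl]
  · rcases z with _ | ⟨_ | _, z⟩ <;> rcases z' with _ | ⟨_ | _, z'⟩ <;>
      simp_all [hφ.inj.eq_iff]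
  · rcases z with _ | ⟨_ | _, z⟩ <;> simp [hφ.li]

theorem oneLi_BA : OneLi (BB φ) (AA φ) :=
  ⟨fun y => true :: y, ⟨inFP_of_pt (by fun_prop), fun _ => Iff.rfl⟩,
    fun _ _ e => (List.cons.inj e).2, fun _ => Nat.lt_succ_self _⟩

theorem almost (hφ : OW φ) {L : Set Str} (hL : InEXP L) (hS : ¬ Succ DD L) :
    ∃ f, Red L (AA φ) f := by
  obtain ⟨e, p, he⟩ := U_exp hL
  obtain ⟨c, hc⟩ : ∃ c, ∀ n, DD (pre L n) < c * 2 ^ n := by simpa [Succ] using hS
  obtain ⟨a, b, hp⟩ := eval_le_pow p
  obtain ⟨k, hk, hke⟩ := exists_col e (c + (a + b))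
  have e1 : Lk k = L := Set.ext fun x => by
    refine (hke ▸ he x _ (Nat.pow_le_pow_right two_pos ((hp _).trans ?_)) :)
    have h1 : a * (x.length + 1) ^ b ≤ (x.length + 2) ^ a * (x.length + 2) ^ b :=
      Nat.mul_le_mul (Nat.lt_pow_self (by omega)).le (Nat.pow_le_pow_left (by omega) _)
    have h2 : (x.length + 2) ^ (a + b) ≤ (x.length + 2) ^ k :=
      Nat.pow_le_pow_right (by omega) (by omega)
    rw [length_code, pow_add] at *
    omega
  have hT : ∀ n, ¬ Tr k n := fun n ⟨t, _, h⟩ =>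
    (hc t).not_ge ((Nat.mul_le_mul_right _ (by omega)).trans (e1 ▸ h))
  obtain ⟨N, hN⟩ := ch_bound (j := k) fun j _ => fin_ch hφ j
  have hf := col_fin hT (fin_rec (p := fun r => r.1 < k) fun r hr h => hN _ _ h hr.spec.1)
  have hc : PT fun x => true :: el 1 (code k x) := PT.cons (PT.const _) (pt_el (PT.const _)
    (PB.const _) (pt_code (PT.const _) PT.id (((PB.const (2 * k + 1)).add ((((PB.const 2).mul
      (ps_length PT.id)).add (PB.const 1)).add (((ps_length PT.id).add (PB.const 2)).pow k))).mono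
        fun x => (length_code k x).le)))
  refine ⟨fun x => if (true :: el 1 (code k x) ∈ AA φ ↔ x ∈ L) then true :: el 1 (code k x) else
    if x ∈ L then [] else [true], inFP_of_pt (pt_patch hc (hf.subset fun x hx =>
      ⟨0, fun h => hx (if_pos (e1 ▸ h))⟩)), fun x => ?_⟩
  dsimp only
  split_ifs with h1 h2
  · exact h1.symm
  · exact iff_of_true h2 trivial
  · refine iff_of_false h2 fun h => ?_
    obtain ⟨r, -, h⟩ : ∃ r, RR φ r ∧ φ r.2.1 = [] := by
      simpa [AA, AS, BS, show ones [] = 0 from rfl, show body [] = [] from rfl] using h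
    simpa [h] using hφ.li r.2.1

theorem inEXP_of (p : Polynomial ℕ) {L : Set Str} (hp : ∀ n, n ≤ p.eval n)
    (h : PTP fun x : Pad Str (fun x => 2 ^ p.eval x.length) => x.val ∈ L) : InEXP L := by
  have hc := (Constr.of_PT (pt_eval p (PT.length (PT.id (α := Str))))).two_pow
  obtain ⟨P, r, hP⟩ := constr_run hc (F := fun x => [decide (x ∈ L)]) (PT.cons h (PT.const []))
  obtain ⟨c, hc⟩ := eval_two_pow r
  refine ⟨.C c * p + .C c, fun x => [decide (x ∈ L)], ⟨⟨P.tm, Equiv.refl _, Equiv.refl _⟩,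
    fun n => r.eval (n + 2 ^ p.eval n), fun a => ?_⟩, fun n => by simpa using hc n _ (hp n),
    fun z => by simp⟩
  have e1 : ∀ l : Str, List.map (Equiv.refl Bool).invFun l = l := List.map_id
  exact (e1 a).symm ▸ (e1 [decide (a ∈ L)]).symm ▸ Classical.choice (hP a).outputs

/-- the bit that keeps the martingale low on both sequences -/
noncomputable def ch (s : Str × Str) (c : Bool) : Bool :=
  decide (DD (s.1 ++ [true]) + DD (s.2 ++ [!c]) ≤ DD (s.1 ++ [false]) + DD (s.2 ++ [c]))

noncomputable def sp (L : Set Str) (n : ℕ) : Str × Str :=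
  ((List.range n).map fun t => decide (str t ∈ L)).foldl
    (fun s c => (s.1 ++ [ch s c], s.2 ++ [ch s c ^^ c])) ([], [])

theorem sp_succ (L : Set Str) (n : ℕ) : sp L (n + 1) =
    ((sp L n).1 ++ [ch (sp L n) (decide (str n ∈ L))],
      (sp L n).2 ++ [ch (sp L n) (decide (str n ∈ L)) ^^ decide (str n ∈ L)]) := by
  rw [sp, List.range_succ, List.map_append, List.foldl_append]; rfl

theorem sp_le (L : Set Str) (n : ℕ) : DD (sp L n).1 + DD (sp L n).2 ≤ 4 * 2 ^ n := by
  induction n with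
  | zero => exact le_rfl
  | succ n ih =>
    rw [sp_succ, pow_succ]
    generalize sp L n = s, decide (str n ∈ L) = c at *
    have := DD_fair s.1
    have := DD_fair s.2
    cases e : ch s c <;> cases c <;> simp [ch] at e ⊢ <;> omega

theorem split {L : Set Str} (hL : InEXP L) : ∃ R R', (InEXP R ∧ ¬ Succ DD R) ∧
    (InEXP R' ∧ ¬ Succ DD R') ∧ ∀ x, x ∈ L ↔ ¬ (x ∈ R ↔ x ∈ R') := by
  obtain ⟨e, p, he⟩ := U_exp hL
  let q := p + .X + 1
  have h1 : PT fun x : Pad Str (fun x => 2 ^ q.eval x.length) => x.val := PT.padVal PT.id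
  have h2 : Lg fun x : Pad Str (fun x => 2 ^ q.eval x.length) => q.eval x.val.length := PS.padLen
  have h3 : PT fun x : Pad Str (fun x => 2 ^ q.eval x.length) => sp L (idx x.val + 1) := by
    have c1 : PT fun y : Pad Str (fun x => 2 ^ q.eval x.length) × (Str × Str) × Bool =>
        ch y.2.1 y.2.2 := PT.decLe (PT.add (pt_DD (by fun_prop)) (pt_DD (by fun_prop)))
      (PT.add (pt_DD (by fun_prop)) (pt_DD (by fun_prop)))
    have c2 : PT fun y : Pad Str (fun x => 2 ^ q.eval x.length) × ℕ =>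
        U e (str y.2) (2 ^ q.eval y.1.val.length) :=
      pt_U (PT.const _) (by fun_prop) (h2.fst.pt (pt_eval q (by fun_prop))) h2.fst
    have c3 : PT fun x : Pad Str (fun x => 2 ^ q.eval x.length) =>
        (List.range (idx x.val + 1)).map fun t => decide (str t ∈ L) := by
      refine (PT.map (g := fun a t => decide (U e (str t) (2 ^ q.eval a.val.length) = some [true]))
        (PT.decEq c2 (PT.const _)) (PT.range (n := fun a => idx a.val + 1) (by fun_prop)
          (PB.mono h2 fun a => Nat.succ_le_of_lt ((idx_lt _).trans_le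
            (Nat.pow_le_pow_right two_pos (by simp [q])))))).of_eq fun a =>
        List.map_congr_left fun t ht => decide_eq_decide.2 (he _ _ ?_)
      have := eval_mono p (length_str_mono (Nat.lt_succ_iff.1 (List.mem_range.1 ht)))
      refine Nat.pow_le_pow_right two_pos ?_
      simp [q] at this ⊢
      omega
    refine PT.foldl_add (f := fun _ s c => (s.1 ++ [ch s c], s.2 ++ [ch s c ^^ c])) (by fun_prop) c3
      (PT.const _) (fun _ => 8) (PB.const 8) fun _ s c _ => ?_
    have := size_append s.1 [ch s c]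
    have := size_append s.2 [ch s c ^^ c]
    have := size_bool (ch s c)
    have := size_bool (ch s c ^^ c)
    rw [size_prod s]
    simp at *
    omega
  have key : ∀ π : Str × Str → Str, PT π → π (sp L 0) = [] → (∀ s, DD (π s) ≤ DD s.1 + DD s.2) →
      (∀ n, ∃ b, π (sp L (n + 1)) = π (sp L n) ++ [b]) →
      InEXP {x | (π (sp L (idx x + 1))).getLast? = some true} ∧
        ¬ Succ DD {x | (π (sp L (idx x + 1))).getLast? = some true} := fun π a b c d => by
    refine ⟨inEXP_of q (fun n => by simp [q]; omega) (PTP.eq (PT.getLast? (a.comp h3))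
      (PT.const _)), fun h => ?_⟩
    obtain ⟨n, hn⟩ := h 5
    have : pre {x | (π (sp L (idx x + 1))).getLast? = some true} n = π (sp L n) := by
      clear hn
      induction n with
      | zero => exact b.symm
      | succ n ih =>
        obtain ⟨b, hb⟩ := d n
        simp [pre_succ, ih, hb]
    have := (this ▸ hn).trans ((c _).trans (sp_le L n))
    have := Nat.two_pow_pos n
    omega
  refine ⟨_, _, key Prod.fst (by fun_prop) rfl (fun _ => Nat.le_add_right _ _)
    fun n => ⟨_, by rw [sp_succ]⟩, key Prod.snd (by fun_prop) rfl (fun _ => Nat.le_add_left _ _)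
    fun n => ⟨_, by rw [sp_succ]⟩, fun x => ?_⟩
  simp only [Set.mem_ofPred_eq, sp_succ, str_idx, List.getLast?_concat, Option.some_inj]
  cases ch (sp L (idx x)) (decide (x ∈ L)) <;> simp

theorem main (h : ∃ L, InUP L ∧ ¬ InP L) : ∃ A B D, OneLi A B ∧ OneLi B A ∧ ¬ Iso A B ∧ Mart D ∧
    ∀ C ∈ [A, B], InE C ∧ ∀ L, InEXP L → ((¬ ∃ f, Red L C f) → Succ D L) ∧
      ∃ f g, InFP f ∧ InFP g ∧ ∀ x, x ∈ L ↔ ¬ (f x ∈ C ↔ g x ∈ C) := by
  obtain ⟨L, h1, h2⟩ := h
  obtain ⟨φ, hφ⟩ := exists_ow h1 h2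
  refine ⟨_, _, DD, oneLi_AB hφ, oneLi_BA, not_iso hφ, mart_DD, fun C hC => ?_⟩
  have h : InE C ∧ ∀ L, InEXP L → ¬ Succ DD L → ∃ f, Red L C f := by
    obtain rfl | rfl : C = AA φ ∨ C = BB φ := by simpa using hC
    · exact ⟨(inE_both hφ).1, fun L => almost hφ⟩
    · refine ⟨(inE_both hφ).2, fun L h1 h2 => ?_⟩
      obtain ⟨f, hf⟩ := almost hφ h1 h2
      obtain ⟨g, hg, -⟩ := oneLi_AB hφ
      exact ⟨fun x => g (f x), inFP_of_pt (hg.1.pt.comp hf.1.pt), fun x => (hf.2 x).trans (hg.2 _)⟩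
  refine ⟨h.1, fun L hL => ⟨fun hn => by_contra fun hS => hn (h.2 L hL hS), ?_⟩⟩
  obtain ⟨R, R', a, b, c⟩ := split hL
  obtain ⟨f, hf⟩ := h.2 R a.1 a.2
  obtain ⟨g, hg⟩ := h.2 R' b.1 b.2
  exact ⟨f, g, hf.1, hg.1, fun x => by rw [c, hf.2, hg.2]⟩

end Pool.Agent.P.MP_7a71fe_lc.AC
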