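import Pool.Agent.Lib.Helper47.Bridge
import Pool.Agent.Lib.Helper47.Pad
import Pool.Agent.P.MP_ba7db8_lc.PTP

/-! A clocked interpreter for stack programs. -/

namespace Pool.Agent.P.MP_7a71fe_lc.AC

open Pool.Agent.Lib.Helper47 Pool.Agent.P.MP_ba7db8_lc

abbrev Str : Type := List Bool

/-- the four stacks -/
abbrev S4 : Type := Str × Str × Str × Str

def kT : K → T
  | .A => .nil
  | .B => .cons .nil .nil
  | .C => .cons .nil (.cons .nil .nil)
  | .D => .cons (.cons .nil .nil) .nil

def gt (k : T) (s : S4) : Str :=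
  if k = kT .A then s.1 else if k = kT .B then s.2.1 else if k = kT .C then s.2.2.1 else s.2.2.2

def pu (k : T) (s : S4) (l : Str) : S4 :=
  if k = kT .A then (l, s.2) else if k = kT .B then (s.1, l, s.2.2) else
    if k = kT .C then (s.1, s.2.1, l, s.2.2.2) else (s.1, s.2.1, s.2.2.1, l)

def s4 (S : St) : S4 := (S .A, S .B, S .C, S .D)

theorem gt_s4 (k : K) (S : St) : gt (kT k) (s4 S) = S k := by cases k <;> rfl

theorem pu_s4 (k : K) (S : St) (l : Str) : pu (kT k) (s4 S) l = s4 (Function.update S k l) := by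
  cases k <;> rfl

/-- the code of a program -/
def pc : Prog → T
  | .skip => .nil
  | .push k b => .cons (kT .B) (.cons (kT k) (bT b))
  | .seq P Q => .cons (kT .C) (.cons (pc P) (pc Q))
  | .case k P Q R => .cons (kT .D) (.cons (kT k) (.cons (pc P) (.cons (pc Q) (pc R))))
  | .loop k Q R => .cons (.cons (kT .D) .nil) (.cons (kT k) (.cons .nil (.cons (pc Q) (pc R))))

/-- one instruction -/
def ex (t : T) (r : List T) (s : S4) : List T × S4 :=
  if t.fst = kT .A then (r, s) else
  if t.fst = kT .B then (r, pu t.snd.fst s ((t.snd.snd != .nil) :: gt t.snd.fst s)) else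
  if t.fst = kT .C then (t.snd.fst :: t.snd.snd :: r, s) else
  if gt t.snd.fst s = [] then (t.snd.snd.fst :: r, s) else
    ((bif (gt t.snd.fst s).headD false then t.snd.snd.snd.snd else t.snd.snd.snd.fst) ::
      (if t.fst = kT .D then r else t :: r), pu t.snd.fst s (gt t.snd.fst s).tail)

def stp (c : List T × S4) : List T × S4 := List.casesOn c.1 c fun t r => ex t r c.2

theorem run_stp {P : Prog} {S S' : St} {n : ℕ} (h : Run P S S' n) :
    ∀ r, ∃ m ≤ 3 * n - 1, 0 < n ∧ stp^[m] (pc P :: r, s4 S) = (r, s4 S') := by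
  have one : ∀ {c c' c'' : List T × S4} {m : ℕ}, stp c = c' → stp^[m] c' = c'' →
      stp^[m + 1] c = c'' := fun h1 h2 => by rw [Function.iterate_succ_apply, h1, h2]
  have two : ∀ {c c' c'' : List T × S4} {m n : ℕ}, stp^[m] c = c' → stp^[n] c' = c'' →
      stp^[n + m] c = c'' := fun h1 h2 => by rw [Function.iterate_add_apply, h1, h2]
  induction h with
  | skip S => exact fun r => ⟨1, by omega, one_pos, rfl⟩
  | push k b S =>
    refine fun r => ⟨1, by omega, one_pos, ?_⟩
    rw [← pu_s4, ← gt_s4 k S]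
    cases b <;> rfl
  | @seq P Q S S' S'' m n _ _ ih1 ih2 =>
    intro r
    obtain ⟨a, ha, h0, h1⟩ := ih1 (pc Q :: r)
    obtain ⟨b, hb, h0', h2⟩ := ih2 r
    exact ⟨_, by omega, by omega, one rfl (two h1 h2)⟩
  | @caseN k P Q R S S' n hk _ ih =>
    intro r
    obtain ⟨a, ha, h0, h1⟩ := ih r
    refine ⟨_, by omega, by omega, one ?_ h1⟩
    simp [stp, ex, pc, T.fst, T.snd, gt_s4, hk, kT.eq_1, kT.eq_2, kT.eq_3, kT.eq_4]
  | @caseF k P Q R S S' l n hk _ ih =>
    intro r
    obtain ⟨a, ha, h0, h1⟩ := ih r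
    refine ⟨_, by omega, by omega, one ?_ h1⟩
    simp [stp, ex, pc, T.fst, T.snd, gt_s4, pu_s4, hk, kT.eq_1, kT.eq_2, kT.eq_3, kT.eq_4]
  | @caseT k P Q R S S' l n hk _ ih =>
    intro r
    obtain ⟨a, ha, h0, h1⟩ := ih r
    refine ⟨_, by omega, by omega, one ?_ h1⟩
    simp [stp, ex, pc, T.fst, T.snd, gt_s4, pu_s4, hk, kT.eq_1, kT.eq_2, kT.eq_3, kT.eq_4]
  | @loopN k Q R S hk =>
    refine fun r => ⟨2, by omega, one_pos, one (c' := (T.nil :: r, s4 S)) ?_ rfl⟩
    simp [stp, ex, pc, T.fst, T.snd, gt_s4, hk, kT.eq_1, kT.eq_2, kT.eq_3, kT.eq_4]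
  | @loopF k Q R S S' S'' l m n hk _ _ ih1 ih2 =>
    intro r
    obtain ⟨a, ha, h0, h1⟩ := ih1 (pc (.loop k Q R) :: r)
    obtain ⟨b, hb, h0', h2⟩ := ih2 r
    refine ⟨_, by omega, by omega, one ?_ (two h1 h2)⟩
    simp [stp, ex, pc, T.fst, T.snd, gt_s4, pu_s4, hk, kT.eq_1, kT.eq_2, kT.eq_3, kT.eq_4]
  | @loopT k Q R S S' S'' l m n hk _ _ ih1 ih2 =>
    intro r
    obtain ⟨a, ha, h0, h1⟩ := ih1 (pc (.loop k Q R) :: r)
    obtain ⟨b, hb, h0', h2⟩ := ih2 r
    refine ⟨_, by omega, by omega, one ?_ (two h1 h2)⟩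
    simp [stp, ex, pc, T.fst, T.snd, gt_s4, pu_s4, hk, kT.eq_1, kT.eq_2, kT.eq_3, kT.eq_4]
  | mono _ hmn ih =>
    intro r
    obtain ⟨a, ha, h0, h1⟩ := ih r
    exact ⟨a, by omega, by omega, h1⟩

/-- the configuration after `s` steps -/
def cf (e : T) (z : Str) (s : ℕ) : List T × S4 := stp^[s] ([e], z, [], [], [])

/-- the output of `e` on `z` if it halts within `s` steps -/
def U (e : T) (z : Str) (s : ℕ) : Option Str :=
  if (cf e z s).1 = [] then some (cf e z s).2.1 else none

theorem U_mono {e : T} {z y : Str} {s s' : ℕ} (h : U e z s = some y) (hs : s ≤ s') :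
    U e z s' = some y := by
  have h1 : (cf e z s).1 = [] := by
    by_contra h1
    simp [U, h1] at h
  obtain ⟨d, rfl⟩ := Nat.exists_eq_add_of_le' hs
  have h2 : cf e z (d + s) = cf e z s := by
    rw [cf, Function.iterate_add_apply]
    refine Function.iterate_fixed ?_ d
    change stp (cf e z s) = cf e z s
    rw [stp, h1]
  rwa [U, h2]

theorem U_uniq {e : T} {z y y' : Str} {s s' : ℕ} (h : U e z s = some y) (h' : U e z s' = some y') :
    y = y' :=
  Option.some.inj ((U_mono h (le_max_left s s')).symm.trans (U_mono h' (le_max_right s s')))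

theorem U_run {P : Prog} {x y : Str} {n s : ℕ} (h : Run P (only x) (only y) n) (hs : 3 * n ≤ s) :
    U (pc P) x s = some y := by
  obtain ⟨m, hm, -, h1⟩ := run_stp h []
  refine U_mono (s := m) ?_ (by omega)
  have h2 : cf (pc P) x m = ([], y, [], [], []) := h1
  simp [U, h2]

/-- the size invariant -/
def Inv (E B : ℕ) (c : List T × S4) : Prop :=
  (∀ t ∈ c.1, t.size ≤ E) ∧ c.1.length ≤ B ∧ c.2.1.length ≤ B ∧ c.2.2.1.length ≤ B ∧
    c.2.2.2.1.length ≤ B ∧ c.2.2.2.2.length ≤ B

theorem fst_le (t : T) : t.fst.size ≤ t.size := by cases t <;> simp [T.fst]; omega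

theorem snd_le (t : T) : t.snd.size ≤ t.size := by cases t <;> simp [T.snd]; omega

theorem Inv.step {E B : ℕ} {c : List T × S4} (h : Inv E B c) : Inv E (B + 1) (stp c) := by
  obtain ⟨_ | ⟨t, r⟩, s⟩ := c
  · obtain ⟨h1, h2⟩ := h
    exact ⟨h1, by dsimp only [stp] at h2 ⊢; omega⟩
  obtain ⟨h1, h2, h3⟩ := h
  have h4 : (gt t.snd.fst s).length ≤ B := by unfold gt; split_ifs <;> tauto
  have h5 : ∀ (q : List T) (l : Str), (∀ x ∈ q, x.size ≤ E) → q.length ≤ B + 1 →
      l.length ≤ B + 1 → Inv E (B + 1) (q, pu t.snd.fst s l) := fun q l a b c => by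
    refine ⟨a, b, ?_⟩
    dsimp only at h3
    unfold pu
    split_ifs <;> dsimp only <;> omega
  have h6 : ∀ q : List T, (∀ x ∈ q, x.size ≤ E) → q.length ≤ B + 1 → Inv E (B + 1) (q, s) :=
    fun q a b => ⟨a, b, by dsimp only at h3 ⊢; omega⟩
  rw [List.forall_mem_cons] at h1
  rw [List.length_cons] at h2
  have a1 := (snd_le t).trans h1.1
  have a2 := (snd_le _).trans a1
  have a3 := (snd_le _).trans a2
  have a4 : (bif (gt t.snd.fst s).headD false then t.snd.snd.snd.snd else
      t.snd.snd.snd.fst).size ≤ E := by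
    cases (gt t.snd.fst s).headD false
    exacts [(fst_le _).trans a3, (snd_le _).trans a3]
  dsimp only [stp, ex]
  split_ifs
  · exact h6 _ h1.2 (by omega)
  · exact h5 _ _ h1.2 (by omega) (by simpa using h4)
  · exact h6 _ (List.forall_mem_cons.2 ⟨(fst_le _).trans a1, List.forall_mem_cons.2 ⟨a2, h1.2⟩⟩)
      (by simp; omega)
  · exact h6 _ (List.forall_mem_cons.2 ⟨(fst_le _).trans a2, h1.2⟩) (by simp; omega)
  · exact h5 _ _ (List.forall_mem_cons.2 ⟨a4, h1.2⟩) (by simp; omega) (by simp; omega)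
  · exact h5 _ _ (List.forall_mem_cons.2 ⟨a4, List.forall_mem_cons.2 h1⟩) (by simp; omega)
      (by simp; omega)

theorem inv_cf (e : T) (z : Str) (s : ℕ) : Inv e.size (z.length + 1 + s) (cf e z s) := by
  induction s with
  | zero => exact ⟨by simp [cf], by simp [cf]⟩
  | succ s ih => rw [cf, Function.iterate_succ_apply']; exact ih.step

theorem U_len {e : T} {z y : Str} {s : ℕ} (h : U e z s = some y) :
    y.length ≤ z.length + 1 + s := by
  unfold U at h
  split_ifs at h
  exact Option.some.inj h ▸ (inv_cf e z s).2.2.1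

section
variable {α β : Type} [Enc α] [Enc β]

@[fun_prop] theorem pt_tfst {f : α → T} (hf : PT f) : PT fun a => (f a).fst := R.trans hf R.fst

@[fun_prop] theorem pt_tsnd {f : α → T} (hf : PT f) : PT fun a => (f a).snd := R.trans hf R.snd

@[fun_prop] theorem pt_tcons {f g : α → T} (hf : PT f) (hg : PT g) :
    PT fun a => T.cons (f a) (g a) := R.pair hf hg

@[fun_prop] theorem pt_iteq {γ : Type} [Enc γ] [DecidableEq β] {f g : α → β} {x y : α → γ}
    (hf : PT f) (hg : PT g) (hx : PT x) (hy : PT y) :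
    PT fun a => if f a = g a then x a else y a := PT.ite (PT.decEq hf hg) hx hy

@[fun_prop] theorem pt_gt {k : α → T} {s : α → S4} (hk : PT k) (hs : PT s) :
    PT fun a => gt (k a) (s a) := by unfold gt; fun_prop

@[fun_prop] theorem pt_pu {k : α → T} {s : α → S4} {l : α → Str} (hk : PT k) (hs : PT s)
    (hl : PT l) : PT fun a => pu (k a) (s a) (l a) := by unfold pu; fun_prop

theorem pt_stp : PT stp :=
  PT.listCases (c := fun (c : List T × S4) t r => ex t r c.2) (by fun_prop) PT.id
    (by unfold ex; fun_prop)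

theorem ps_comp {g : β → ℕ} {r : α → β} (hg : PS g) (hr : PT r) : PS fun a => g (r a) :=
  hr.size_le.trans (hg.reindex r)

theorem pt_U {e : α → T} {z : α → Str} {s : α → ℕ} (he : PT e) (hz : PT z) (hs : PT s)
    (hb : PS s) : PT fun a => U (e a) (z a) (s a) := by
  have h := PT.iterate (f := fun _ : α => stp) (pt_stp.comp (by fun_prop)) (PT.range hs hb)
    (s := fun a => (([e a], z a, [], [], []) : List T × S4)) (by fun_prop)
    (fun a => ((z a).length + 1 + s a) * (size (e a) + 17) + 9)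
    (((((ps_length hz).add (PB.const 1)).add hb).mul (he.size_le.add (PB.const 17))).add
      (PB.const 9)) (fun a i hi => by
      rw [List.length_range] at hi
      obtain ⟨h1, h2, h3, h4, h5, h6⟩ := inv_cf (e a) (z a) i
      change size (cf (e a) (z a) i) ≤ _
      generalize cf (e a) (z a) i = c at *
      have h7 := size_list_le (B := size (e a)) h1
      have h8 := Nat.mul_le_mul_right (size (e a) + 1) (h2.trans (Nat.add_le_add_left hi _))
      have := size_bits_le c.2.1
      have := size_bits_le c.2.2.1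
      have := size_bits_le c.2.2.2.1
      have := size_bits_le c.2.2.2.2
      rw [size_prod, size_prod, size_prod, size_prod, show size (e a) + 17 = size (e a) + 1 + 16
        from rfl, mul_add]
      omega)
  have h' : PT fun a => cf (e a) (z a) (s a) := h.of_eq fun a => by rw [List.length_range, cf]
  unfold U
  fun_prop

end

/-- reading a tree from its code -/
def dec (l : Str) : T :=
  (l.reverse.foldl (fun (q : List T) b => bif b then
    T.cons (q.headD .nil) (q.tail.headD .nil) :: q.tail.tail else .nil :: q) []).headD .nil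

theorem dec_enc (t : T) : dec t.enc = t := by
  have h : ∀ (t : T) (q : List T), t.enc.reverse.foldl (fun (q : List T) b => bif b then
      T.cons (q.headD .nil) (q.tail.headD .nil) :: q.tail.tail else .nil :: q) q = t :: q := by
    intro t
    induction t with
    | nil => intro q; rfl
    | cons a b iha ihb =>
      intro q
      rw [T.enc, List.reverse_cons, List.reverse_append, List.foldl_append, List.foldl_append,
        ihb, iha]
      rfl
  rw [dec, h]; rfl

@[fun_prop] theorem pt_dec {α : Type} [Enc α] {l : α → Str} (hl : PT l) :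
    PT fun a => dec (l a) := by
  refine PT.headD (PT.foldl_add (by fun_prop) (PT.reverse hl) (PT.const _) (fun _ => 4)
    (PB.const 4) fun a q b _ => ?_) (PT.const _)
  have e : ∀ t : T, size t = t.size := fun _ => rfl
  cases b
  · simp [e]; omega
  · rcases q with _ | ⟨x, _ | ⟨y, q⟩⟩ <;> simp [e] <;> omega

end Pool.Agent.P.MP_7a71fe_lc.AC
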